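import Pool.Agent.Helper64.HG.Stmts

set_option autoImplicit false

namespace Pool.Agent.Helper64.HG

variable {V : Type}

/-! Restriction of lists to an induced subgraph; FUT, FUB, FUE, FUW, EMB, KPERM. -/

theorem fu_pull (S : Set V) (A : List V) (h : ∀ x ∈ A, x ∈ S) :
    ∃ A' : List S, A'.map Subtype.val = A :=
  ⟨A.attachWith _ h, by rw [List.attachWith_map_subtype_val]⟩

theorem fu_ip (G : SimpleGraph V) (S : Set V) (A : List S) :
    IP (G.induce S) A ↔ IP G (A.map Subtype.val) := by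
  unfold IP
  rw [List.nodup_map_iff Subtype.val_injective]
  constructor
  · rintro ⟨h1, h2⟩
    refine ⟨h1, fun i j hi hj hij => ?_⟩
    rw [List.length_map] at hi hj
    rw [List.getElem_map, List.getElem_map]
    exact h2 i j hi hj hij
  · rintro ⟨h1, h2⟩
    refine ⟨h1, fun i j hi hj hij => ?_⟩
    have h3 := h2 i j (by rw [List.length_map]; exact hi) (by rw [List.length_map]; exact hj) hij
    rw [List.getElem_map, List.getElem_map] at h3
    exact h3

theorem fu_mem (S : Set V) (x : S) (A : List S) : x ∈ A ↔ x.1 ∈ A.map Subtype.val := by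
  constructor
  · exact fun h => List.mem_map_of_mem h
  · intro h
    obtain ⟨y, hy, hxy⟩ := List.mem_map.mp h
    rwa [← Subtype.ext hxy]

theorem fu_anti (G : SimpleGraph V) (S : Set V) (A B : List S) :
    Anti (G.induce S) A B ↔ Anti G (A.map Subtype.val) (B.map Subtype.val) := by
  constructor
  · intro h a ha b hb
    obtain ⟨a', ha', rfl⟩ := List.mem_map.mp ha
    obtain ⟨b', hb', rfl⟩ := List.mem_map.mp hb
    obtain ⟨h1, h2⟩ := h a' ha' b' hb'
    exact ⟨fun e => h1 (Subtype.ext e), h2⟩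
  · intro h a ha b hb
    obtain ⟨h1, h2⟩ := h a.1 (List.mem_map_of_mem ha) b.1 (List.mem_map_of_mem hb)
    exact ⟨fun e => h1 (congrArg Subtype.val e), h2⟩

theorem fu_head (S : Set V) (A : List S) (x : S) :
    A.head? = some x ↔ (A.map Subtype.val).head? = some x.1 := by
  rw [List.head?_map]
  cases A.head? with
  | none => simp only [Option.map_none, reduceCtorEq]
  | some y =>
    rw [Option.map_some, Option.some_inj, Option.some_inj]
    exact Subtype.ext_iff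

theorem fu_last (S : Set V) (A : List S) (x : S) :
    A.getLast? = some x ↔ (A.map Subtype.val).getLast? = some x.1 := by
  rw [List.getLast?_map]
  cases A.getLast? with
  | none => simp only [Option.map_none, reduceCtorEq]
  | some y =>
    rw [Option.map_some, Option.some_inj, Option.some_inj]
    exact Subtype.ext_iff

theorem fu_link (G : SimpleGraph V) (S : Set V) (u w : S) (A : List S) :
    Link (G.induce S) u A w ↔ Link G u.1 (A.map Subtype.val) w.1 := by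
  unfold Link
  rw [fu_ip, fu_mem S u A, fu_mem S w A, ne_eq, ne_eq, List.map_eq_nil_iff]
  constructor
  · rintro ⟨h1, h2, h3, h4, h5, h6⟩
    refine ⟨h1, h2, h3, h4, ?_, ?_⟩
    · intro x hx
      obtain ⟨x', hx', rfl⟩ := List.mem_map.mp hx
      rw [← fu_head]
      exact h5 x' hx'
    · intro x hx
      obtain ⟨x', hx', rfl⟩ := List.mem_map.mp hx
      rw [← fu_last]
      exact h6 x' hx'
  · rintro ⟨h1, h2, h3, h4, h5, h6⟩
    refine ⟨h1, h2, h3, h4, ?_, ?_⟩
    · intro x hx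
      rw [fu_head]
      exact h5 x.1 (List.mem_map_of_mem hx)
    · intro x hx
      rw [fu_last]
      exact h6 x.1 (List.mem_map_of_mem hx)

theorem fu_ic (G : SimpleGraph V) (S : Set V) (A : List S) :
    IC (G.induce S) A ↔ IC G (A.map Subtype.val) := by
  unfold IC
  rw [List.nodup_map_iff Subtype.val_injective]
  constructor
  · rintro ⟨h0, h1, h2⟩
    refine ⟨by rw [List.length_map]; exact h0, h1, fun i j hi hj hij => ?_⟩
    rw [List.getElem_map, List.getElem_map]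
    have hl : (List.map Subtype.val A).length = A.length := List.length_map _
    have h3 := h2 i j (by rw [← hl]; exact hi) (by rw [← hl]; exact hj) hij
    refine Iff.trans h3 ?_
    rw [hl]
  · rintro ⟨h0, h1, h2⟩
    rw [List.length_map] at h0
    refine ⟨h0, h1, fun i j hi hj hij => ?_⟩
    have hl : (List.map Subtype.val A).length = A.length := List.length_map _
    have h3 := h2 i j (by rw [List.length_map]; exact hi) (by rw [List.length_map]; exact hj) hij
    rw [List.getElem_map, List.getElem_map] at h3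
    refine Iff.trans h3 ?_
    rw [hl]

theorem fu_univ {S : Set V} (P : Prop) (h : S ≠ Set.univ → False) (h2 : (∀ x, x ∈ S) → P) : P := by
  by_cases hS : S = Set.univ
  · exact h2 (fun x => by rw [hS]; exact Set.mem_univ x)
  · exact (h hS).elim

theorem st_FUT : ST_FUT := by
  rintro V G ⟨u, w, A, B, C, h⟩ hmin
  refine ⟨u, w, A, B, C, h, ?_⟩
  refine fu_univ (S := {x | x = u ∨ x = w ∨ x ∈ A ∨ x ∈ B ∨ x ∈ C}) _ ?_ id
  intro hS
  apply hmin _ hS
  obtain ⟨A', hA⟩ := fu_pull {x | x = u ∨ x = w ∨ x ∈ A ∨ x ∈ B ∨ x ∈ C} A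
    (fun x hx => Or.inr (Or.inr (Or.inl hx)))
  obtain ⟨B', hB⟩ := fu_pull {x | x = u ∨ x = w ∨ x ∈ A ∨ x ∈ B ∨ x ∈ C} B
    (fun x hx => Or.inr (Or.inr (Or.inr (Or.inl hx))))
  obtain ⟨C', hC⟩ := fu_pull {x | x = u ∨ x = w ∨ x ∈ A ∨ x ∈ B ∨ x ∈ C} C
    (fun x hx => Or.inr (Or.inr (Or.inr (Or.inr hx))))
  refine ⟨⟨u, Or.inl rfl⟩, ⟨w, Or.inr (Or.inl rfl)⟩, A', B', C', ?_⟩
  constructor
  · exact fun e => h.ne (congrArg Subtype.val e)
  · exact h.nadj
  · rw [fu_link, hA]; exact h.linkA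
  · rw [fu_link, hB]; exact h.linkB
  · rw [fu_link, hC]; exact h.linkC
  · rw [fu_anti, hA, hB]; exact h.AB
  · rw [fu_anti, hA, hC]; exact h.AC
  · rw [fu_anti, hB, hC]; exact h.BC
  · rw [← List.length_map Subtype.val, hA]; exact h.lA
  · rw [← List.length_map Subtype.val, hB]; exact h.lB
  · rw [← List.length_map Subtype.val, hC]; exact h.lC

theorem st_FUB : ST_FUB := by
  rintro V G ⟨u, w, A, B, C, h⟩ hmin
  refine ⟨u, w, A, B, C, h, ?_⟩
  refine fu_univ (S := {x | x = u ∨ x = w ∨ x ∈ A ∨ x ∈ B ∨ x ∈ C}) _ ?_ id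
  intro hS
  apply hmin _ hS
  obtain ⟨A', hA⟩ := fu_pull {x | x = u ∨ x = w ∨ x ∈ A ∨ x ∈ B ∨ x ∈ C} A
    (fun x hx => Or.inr (Or.inr (Or.inl hx)))
  obtain ⟨B', hB⟩ := fu_pull {x | x = u ∨ x = w ∨ x ∈ A ∨ x ∈ B ∨ x ∈ C} B
    (fun x hx => Or.inr (Or.inr (Or.inr (Or.inl hx))))
  obtain ⟨C', hC⟩ := fu_pull {x | x = u ∨ x = w ∨ x ∈ A ∨ x ∈ B ∨ x ∈ C} C
    (fun x hx => Or.inr (Or.inr (Or.inr (Or.inr hx))))
  refine ⟨⟨u, Or.inl rfl⟩, ⟨w, Or.inr (Or.inl rfl)⟩, A', B', C', ?_⟩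
  constructor
  · exact h.adj
  · rw [fu_link, hA]; exact h.linkA
  · rw [fu_link, hB]; exact h.linkB
  · rw [fu_link, hC]; exact h.linkC
  · rw [fu_anti, hA, hB]; exact h.AB
  · rw [fu_anti, hA, hC]; exact h.AC
  · rw [fu_anti, hB, hC]; exact h.BC
  · rw [← List.length_map Subtype.val, hA]; exact h.lA
  · rw [← List.length_map Subtype.val, hB]; exact h.lB
  · rw [← List.length_map Subtype.val, hC]; exact h.lC

theorem st_FUE : ST_FUE := by
  rintro V G ⟨x0, x1, x2, F, B, C, h⟩ hmin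
  refine ⟨x0, x1, x2, F, B, C, h, ?_⟩
  refine fu_univ (S := {x | x = x0 ∨ x = x1 ∨ x = x2 ∨ x ∈ F ∨ x ∈ B ∨ x ∈ C}) _ ?_ id
  intro hS
  apply hmin _ hS
  obtain ⟨A', hA⟩ := fu_pull {x | x = x0 ∨ x = x1 ∨ x = x2 ∨ x ∈ F ∨ x ∈ B ∨ x ∈ C} F
    (fun x hx => Or.inr (Or.inr (Or.inr (Or.inl hx))))
  obtain ⟨B', hB⟩ := fu_pull {x | x = x0 ∨ x = x1 ∨ x = x2 ∨ x ∈ F ∨ x ∈ B ∨ x ∈ C} B
    (fun x hx => Or.inr (Or.inr (Or.inr (Or.inr (Or.inl hx)))))
  obtain ⟨C', hC⟩ := fu_pull {x | x = x0 ∨ x = x1 ∨ x = x2 ∨ x ∈ F ∨ x ∈ B ∨ x ∈ C} C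
    (fun x hx => Or.inr (Or.inr (Or.inr (Or.inr (Or.inr hx)))))
  refine ⟨⟨x0, Or.inl rfl⟩, ⟨x1, Or.inr (Or.inl rfl)⟩, ⟨x2, Or.inr (Or.inr (Or.inl rfl))⟩,
    A', B', C', ?_⟩
  constructor
  · exact h.adj01
  · exact h.adj02
  · exact fun e => h.ne12 (congrArg Subtype.val e)
  · exact h.nadj12
  · rw [fu_link, hA]; exact h.linkF
  · rw [fu_link, hB]; exact h.linkB
  · rw [fu_link, hC]; exact h.linkC
  · rw [fu_anti, hA, hB]; exact h.FB
  · rw [fu_anti, hA, hC]; exact h.FC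
  · rw [fu_anti, hB, hC]; exact h.BC
  · rw [fu_anti, hA]; exact h.x2F
  · rw [fu_anti, hB]; exact h.x0B
  · rw [fu_anti, hC]; exact h.x0C
  · rw [← List.length_map Subtype.val, hA]; exact h.lF
  · rw [← List.length_map Subtype.val, hB]; exact h.lB
  · rw [← List.length_map Subtype.val, hC]; exact h.lC

theorem st_FUW : ST_FUW := by
  rintro V G ⟨h, L, a, b, c, hW⟩ hmin
  refine ⟨h, L, a, b, c, hW, ?_⟩
  refine fu_univ (S := {x | x = h ∨ x ∈ L}) _ ?_ id
  intro hS
  apply hmin _ hS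
  obtain ⟨L', hL⟩ := fu_pull {x | x = h ∨ x ∈ L} L (fun x hx => Or.inr hx)
  refine ⟨⟨h, Or.inl rfl⟩, L', ⟨a, Or.inr hW.aL⟩, ⟨b, Or.inr hW.bL⟩, ⟨c, Or.inr hW.cL⟩, ?_⟩
  constructor
  · rw [fu_ic, hL]; exact hW.ic
  · rw [fu_mem, hL]; exact hW.hL
  · rw [fu_mem, hL]; exact hW.aL
  · rw [fu_mem, hL]; exact hW.bL
  · rw [fu_mem, hL]; exact hW.cL
  · exact fun e => hW.ab (congrArg Subtype.val e)
  · exact fun e => hW.ac (congrArg Subtype.val e)
  · exact fun e => hW.bc (congrArg Subtype.val e)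
  · exact hW.ha
  · exact hW.hb
  · exact hW.hc

theorem st_EMB : ST_EMB := by
  rintro V W G H f ⟨l, r, h⟩
  refine ⟨fun x => l (f x), fun x => r (f x), ?_⟩
  constructor
  · exact fun v => h.lt (f v)
  · exact fun x y e => f.injective (h.injl e)
  · exact fun x y e => f.injective (h.injr e)
  · exact fun u v => h.ne (f u) (f v)
  · intro u v
    rw [← f.map_adj_iff]
    exact h.adj (f u) (f v)

theorem st_KPERM : ST_KPERM := by
  intro V G x A τ h
  have hne : ∀ i j : Fin 4, i ≠ j → τ i ≠ τ j := fun i j hij e => hij (τ.injective e)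
  constructor
  · exact fun i j e => τ.injective (h.inj e)
  · exact fun i j => h.rev (τ i) (τ j)
  · exact fun i j hij => h.edge (τ i) (τ j) (hne i j hij)
  · exact fun i j hij => h.nedge (τ i) (τ j) (hne i j hij)
  · exact fun i j hij => h.link (τ i) (τ j) (hne i j hij)
  · intro i j k l hij hkl h1 h2
    exact h.anti (τ i) (τ j) (τ k) (τ l) (hne i j hij) (hne k l hkl)
      (fun ⟨e1, e2⟩ => h1 ⟨τ.injective e1, τ.injective e2⟩)
      (fun ⟨e1, e2⟩ => h2 ⟨τ.injective e1, τ.injective e2⟩)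
  · exact fun i j k hij hki hkj => h.antix (τ i) (τ j) (τ k) (hne i j hij) (hne k i hki) (hne k j hkj)

end Pool.Agent.Helper64.HG
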