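import Pool.Agent.Helper64.HG.Stmts

set_option autoImplicit false

namespace Pool.Agent.Helper64.HG

theorem con3_symm {V : Type} {G : SimpleGraph V} {v : V} {K : Set V} {q : V → ℝ} {a b : V}
    (h : Cons G v K q a b) : Cons G v K q b a := by
  obtain ⟨h1, h2, h3, h4⟩ := h
  exact ⟨h2, h1, h3.symm, fun n hn hb => h4 n hn (hb.symm)⟩

/-- the path belonging to two consecutive attachments -/
theorem con3_touch {V ι : Type} {G : SimpleGraph V} {v : V} {K : ι → Set V} {q : ι → V → ℝ}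
    (hL : Loc G v K q) (c : ι) (a b : V) (h : Cons G v (K c) (q c) a b) :
    ∃ A : List V, (∀ x ∈ A, x ∈ K c) ∧ Link G a A b ∧
      ∀ n, G.Adj v n → n ≠ a → n ≠ b → ∀ x ∈ A, ¬ G.Adj n x := by
  obtain ⟨h1, h2, h3, h4⟩ := h
  obtain ⟨A, hA, hLk, hn⟩ := hL.path c a h1 b h2 h3
  refine ⟨A, hA, hLk, fun n hvn hna hnb x hx hadj => ?_⟩
  obtain ⟨h5, h6⟩ := (hn n hvn hna hnb).mp ⟨x, hx, hadj⟩
  exact h4 n h5 h6

theorem con3_real (x y n : ℝ) (hxy : x ≠ y) (hxn : x ≠ n) (hyn : y ≠ n)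
    (h1 : ¬ ((x < y ∧ y < n) ∨ (n < y ∧ y < x))) (h2 : ¬ ((n < x ∧ x < y) ∨ (y < x ∧ x < n))) :
    (x < n ∧ n < y) ∨ (y < n ∧ n < x) := by
  rcases lt_or_gt_of_ne hxy with h | h <;> rcases lt_or_gt_of_ne hxn with h' | h' <;>
    rcases lt_or_gt_of_ne hyn with h'' | h''
  · exact absurd (Or.inl ⟨h, h''⟩) h1
  · exact Or.inl ⟨h', h''⟩
  · exact absurd (Or.inl ⟨h', h⟩) h2
  · exact absurd (Or.inl ⟨h', h⟩) h2
  · exact absurd (Or.inr ⟨h, h'⟩) h2
  · exact absurd (Or.inr ⟨h, h'⟩) h2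
  · exact Or.inr ⟨h'', h'⟩
  · exact absurd (Or.inr ⟨h'', h⟩) h1

theorem con3_mid {V ι : Type} {G : SimpleGraph V} {v : V} {K : ι → Set V} {q : ι → V → ℝ}
    (hL : Loc G v K q) (c : ι) (a n b : V) (h : Cons G v (K c) (q c) a n)
    (h' : Cons G v (K c) (q c) n b) (hab : a ≠ b) :
    Btw (q c) a n b ∧ ∀ w ∈ Att G v (K c), Btw (q c) a w b → w = n := by
  obtain ⟨h1, h2, h3, h4⟩ := h
  obtain ⟨h5, h6, h7, h8⟩ := h'
  have e1 : q c a ≠ q c b := fun e => hab (hL.inj c a h1 b h6 e)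
  have e2 : q c a ≠ q c n := fun e => h3 (hL.inj c a h1 n h2 e)
  have e3 : q c b ≠ q c n := fun e => h7 (hL.inj c b h6 n h2 e).symm
  have hb := con3_real (q c a) (q c b) (q c n) e1 e2 e3 (h4 b h6) (h8 a h1)
  refine ⟨hb, fun w hw hwb => ?_⟩
  by_contra hwn
  have e4 : q c w ≠ q c n := fun e => hwn (hL.inj c w hw n h2 e)
  have g1 := h4 w hw
  have g2 := h8 w hw
  rcases hb with ⟨hb1, hb2⟩ | ⟨hb1, hb2⟩
  · rcases hwb with ⟨k1, k2⟩ | ⟨k1, k2⟩
    · rcases lt_or_gt_of_ne e4 with k | k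
      · exact g1 (Or.inl ⟨k1, k⟩)
      · exact g2 (Or.inl ⟨k, k2⟩)
    · exact absurd (k1.trans k2) (not_lt.mpr (hb1.trans hb2).le)
  · rcases hwb with ⟨k1, k2⟩ | ⟨k1, k2⟩
    · exact absurd (k1.trans k2) (not_lt.mpr (hb1.trans hb2).le)
    · rcases lt_or_gt_of_ne e4 with k | k
      · exact g2 (Or.inr ⟨k1, k⟩)
      · exact g1 (Or.inr ⟨k, k2⟩)

theorem con3_three {V ι : Type} [Finite V] {G : SimpleGraph V} {v : V} {K : ι → Set V}
    {q : ι → V → ℝ} (c : ι)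
    (hnm : ∀ a n b, Cons G v (K c) (q c) a n → Cons G v (K c) (q c) n b → a = b)
    (x y w : V) (hx : x ∈ Att G v (K c)) (hy : y ∈ Att G v (K c)) (hw : w ∈ Att G v (K c))
    (h1 : q c x < q c y) (h2 : q c y < q c w) : False := by
  obtain ⟨a, ⟨ha1, ha2⟩, ha3⟩ := Set.exists_max_image
    {a | a ∈ Att G v (K c) ∧ q c a < q c y} (q c) (Set.toFinite _) ⟨x, hx, h1⟩
  obtain ⟨b, ⟨hb1, hb2⟩, hb3⟩ := Set.exists_min_image
    {b | b ∈ Att G v (K c) ∧ q c y < q c b} (q c) (Set.toFinite _) ⟨w, hw, h2⟩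
  have hc1 : Cons G v (K c) (q c) a y := by
    refine ⟨ha1, hy, fun e => absurd ha2 (by rw [e]; exact lt_irrefl _), fun n hn hb => ?_⟩
    rcases hb with ⟨k1, k2⟩ | ⟨k1, k2⟩
    · exact absurd k1 (not_lt.mpr (ha3 n ⟨hn, k2⟩))
    · exact absurd (k1.trans k2) (not_lt.mpr ha2.le)
  have hc2 : Cons G v (K c) (q c) y b := by
    refine ⟨hy, hb1, fun e => absurd hb2 (by rw [e]; exact lt_irrefl _), fun n hn hb => ?_⟩
    rcases hb with ⟨k1, k2⟩ | ⟨k1, k2⟩
    · exact absurd k2 (not_lt.mpr (hb3 n ⟨hn, k1⟩))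
    · exact absurd (k1.trans k2) (not_lt.mpr hb2.le)
  have h3 := hnm a y b hc1 hc2
  rw [h3] at ha2
  exact absurd (ha2.trans hb2) (lt_irrefl _)

theorem con3_two {V ι : Type} [Finite V] {G : SimpleGraph V} {v : V} {K : ι → Set V}
    {q : ι → V → ℝ} (hL : Loc G v K q) (c : ι)
    (hnm : ∀ a n b, Cons G v (K c) (q c) a n → Cons G v (K c) (q c) n b → a = b)
    (x y w : V) (hx : x ∈ Att G v (K c)) (hy : y ∈ Att G v (K c)) (hw : w ∈ Att G v (K c))
    (hxy : x ≠ y) (hxw : x ≠ w) (hyw : y ≠ w) : False := by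
  have e1 : q c x ≠ q c y := fun e => hxy (hL.inj c x hx y hy e)
  have e2 : q c x ≠ q c w := fun e => hxw (hL.inj c x hx w hw e)
  have e3 : q c y ≠ q c w := fun e => hyw (hL.inj c y hy w hw e)
  rcases lt_or_gt_of_ne e1 with h | h <;> rcases lt_or_gt_of_ne e2 with h' | h' <;>
    rcases lt_or_gt_of_ne e3 with h'' | h''
  · exact con3_three c hnm x y w hx hy hw h h''
  · exact con3_three c hnm x w y hx hw hy h' h''
  · exact con3_three c hnm w x y hw hx hy h' h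
  · exact con3_three c hnm w x y hw hx hy h' h
  · exact con3_three c hnm y x w hy hx hw h h'
  · exact con3_three c hnm y x w hy hx hw h h'
  · exact con3_three c hnm y w x hy hw hx h'' h'
  · exact con3_three c hnm w y x hw hy hx h'' h

/-- transfer of a list to the graph without `n` -/
theorem con3_lift {V : Type} {G : SimpleGraph V} {v n : V} (a b : V) (A : List V)
    (hvn : v ∈ ({n}ᶜ : Set V)) (han : a ∈ ({n}ᶜ : Set V)) (hbn : b ∈ ({n}ᶜ : Set V))
    (hn : G.Adj v n) (hA : ∀ x ∈ A, x ∈ Far G v) (hLk : Link G a A b)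
    (hT : ∀ w, G.Adj v w → w ≠ a → w ≠ b → w ≠ n → ∀ x ∈ A, ¬ G.Adj w x) :
    ∃ A' : List ({n}ᶜ : Set V), Ch (G.induce {n}ᶜ) A' ∧
      (∀ x ∈ A', x ∈ Far (G.induce {n}ᶜ) ⟨v, hvn⟩) ∧
      (∃ x ∈ A', (G.induce {n}ᶜ).Adj ⟨a, han⟩ x) ∧ (∃ x ∈ A', (G.induce {n}ᶜ).Adj ⟨b, hbn⟩ x) ∧
      ∀ w : ({n}ᶜ : Set V), G.Adj v w → w ≠ ⟨a, han⟩ → w ≠ ⟨b, hbn⟩ →
        ∀ x ∈ A', ¬ (G.induce {n}ᶜ).Adj w x := by
  have hAn : ∀ x ∈ A, x ∈ ({n}ᶜ : Set V) := by
    intro x hx e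
    rw [Set.mem_singleton_iff] at e
    exact (hA x hx).2 (e ▸ hn)
  obtain ⟨A', rfl⟩ : ∃ A' : List ({n}ᶜ : Set V), A'.map Subtype.val = A :=
    ⟨A.attachWith _ hAn, by rw [List.attachWith_map_subtype_val]⟩
  obtain ⟨h1, ⟨h2, h3⟩, h4, h5, h6, h7⟩ := hLk
  refine ⟨A', ?_, ?_, ?_, ?_, ?_⟩
  · intro i hi
    have hi' : i + 1 < (A'.map Subtype.val).length := by rw [List.length_map]; exact hi
    have h8 := (h3 i (i + 1) (Nat.lt_of_succ_lt hi') hi' (Nat.lt_succ_self i)).mpr rfl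
    rw [List.getElem_map, List.getElem_map] at h8
    exact h8
  · intro x hx
    have h8 := hA x.1 (List.mem_map_of_mem hx)
    exact ⟨fun e => h8.1 (congrArg Subtype.val e), fun e => h8.2 e⟩
  · have h8 := (h6 _ (List.head_mem h1)).mpr (List.head?_eq_some_head h1)
    obtain ⟨x, hx, hx'⟩ := List.mem_map.mp (List.head_mem h1)
    refine ⟨x, hx, ?_⟩
    rw [← hx'] at h8
    exact h8
  · have h8 := (h7 _ (List.getLast_mem h1)).mpr (List.getLast?_eq_some_getLast h1)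
    obtain ⟨x, hx, hx'⟩ := List.mem_map.mp (List.getLast_mem h1)
    refine ⟨x, hx, ?_⟩
    rw [← hx'] at h8
    exact h8
  · intro w hvw hwa hwb x hx hadj
    exact hT w.1 hvw (fun e => hwa (Subtype.ext e)) (fun e => hwb (Subtype.ext e)) w.2 x.1
      (List.mem_map_of_mem hx) hadj

theorem con3_cast {m : ℕ} (k l : ℕ) (hk : k < m) (hl : l < m)
    (h : (k : ZMod m) = (l : ZMod m)) : k = l := by
  have h1 := (ZMod.natCast_eq_natCast_iff' k l m).mp h
  rwa [Nat.mod_eq_of_lt hk, Nat.mod_eq_of_lt hl] at h1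

/-- a piece with a middle element, `m = 3` -/
theorem con3_a3 (hHUB : ST_HUB) {V ι : Type} {G : SimpleGraph V} {v : V}
    {K : ι → Set V} {q : ι → V → ℝ} (hG : Girth5 G) (hL : Loc G v K q) (c : ι) (a n b : V)
    (h : Cons G v (K c) (q c) a n) (h' : Cons G v (K c) (q c) n b) (hab : a ≠ b)
    (h3 : Lam G v K q a b) : HasW G ∨ HasK G := by
  obtain ⟨c', hc'⟩ := h3
  obtain ⟨hm1, hm2⟩ := con3_mid hL c a n b h h' hab
  have hcc : c' ≠ c := by
    rintro rfl
    exact hc'.2.2.2 n h.2.1 hm1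
  obtain ⟨A, hA, hLA, hTA⟩ := hL.path c a h.1 b h'.2.1 hab
  obtain ⟨B, hB, hLB, hTB⟩ := con3_touch hL c' a b hc'
  have hvn : G.Adj v n := h.2.1.1
  have hAF : ∀ x ∈ A, x ∈ Far G v := fun x hx => hL.sub c (hA x hx)
  have hBF : ∀ x ∈ B, x ∈ Far G v := fun x hx => hL.sub c' (hB x hx)
  refine hHUB V G v n a b A B hG h.1.1 h'.2.1.1 hab hvn h.2.2.1.symm h'.2.2.1 hLA hLB ?_ ?_ ?_ ?_
    ?_ ?_
  · intro x hx y hy
    exact hL.sep c c' hcc.symm x (hA x hx) y (hB y hy)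
  · intro x hx y hy
    rw [List.mem_singleton] at hx
    subst hx
    exact ⟨(hAF y hy).1.symm, (hAF y hy).2⟩
  · intro x hx y hy
    rw [List.mem_singleton] at hx
    subst hx
    exact ⟨(hBF y hy).1.symm, (hBF y hy).2⟩
  · intro x hx y hy
    rw [List.mem_singleton] at hx
    subst hx
    refine ⟨?_, hTB x hvn h.2.2.1.symm h'.2.2.1 y hy⟩
    rintro rfl
    exact (hBF x hy).2 hvn
  · intro hnA
    exact (hAF n hnA).2 hvn
  · exact (hTA n hvn h.2.2.1.symm h'.2.2.1).mpr ⟨h.2.1, hm1⟩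

theorem con3_girth {V : Type} {G : SimpleGraph V} (S : Set V) (hG : Girth5 G) :
    Girth5 (G.induce S) :=
  ⟨fun a b c h1 h2 h3 => hG.1 a.1 b.1 c.1 h1 h2 h3,
    fun a b c d h1 h2 h3 h4 h5 h6 => hG.2 a.1 b.1 c.1 d.1 (fun e => h1 (Subtype.ext e))
      (fun e => h2 (Subtype.ext e)) h3 h4 h5 h6⟩

theorem con3_zero {N : ℕ} (k : ℕ) (hk : k < N) : (1 + (k : ZMod (N + 1))) ≠ 0 := by
  intro h
  have h1 : ((1 + k : ℕ) : ZMod (N + 1)) = ((0 : ℕ) : ZMod (N + 1)) := by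
    push_cast
    exact h
  have h2 := con3_cast (m := N + 1) (1 + k) 0 (by omega) (by omega) h1
  omega

/-- a piece with a middle element, `m ≥ 4` -/
theorem con3_a4 (hLC : ST_LC) {V ι : Type} [Finite V] {G : SimpleGraph V} {v : V}
    {K : ι → Set V} {q : ι → V → ℝ} (N : ℕ) (hN : 3 ≤ N) (z : ZMod (N + 1) → V) (hG : Girth5 G)
    (hL : Loc G v K q) (hC : ∀ x : V, Circ (G.induce {x}ᶜ)) (hz : Function.Injective z)
    (hnb : ∀ i, G.Adj v (z i))
    (hLam : ∀ i j, Lam G v K q (z i) (z j) ↔ (j = i + 1 ∨ i = j + 1)) (j : ZMod (N + 1)) (c : ι)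
    (h : Cons G v (K c) (q c) (z (j - 1)) (z j))
    (h' : Cons G v (K c) (q c) (z j) (z (j + 1))) : False := by
  haveI : NeZero N := ⟨by omega⟩
  have hne : ∀ k : ℕ, k < N → z (j + 1 + (k : ZMod (N + 1))) ∈ ({z j}ᶜ : Set V) := by
    intro k hk e
    rw [Set.mem_singleton_iff] at e
    have h1 := hz e
    apply con3_zero k hk
    have h2 : j + 1 + (k : ZMod (N + 1)) - j = 0 := sub_eq_zero.mpr h1
    have h3 : j + 1 + (k : ZMod (N + 1)) - j = 1 + (k : ZMod (N + 1)) := by ring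
    rw [← h3]
    exact h2
  have hv : v ∈ ({z j}ᶜ : Set V) := by
    intro e
    rw [Set.mem_singleton_iff] at e
    have h1 := hnb j
    rw [← e] at h1
    exact G.loopless.irrefl v h1
  have hab : z (j - 1) ≠ z (j + 1) := by
    intro e
    have h1 := hz e
    have h2 : ((2 : ℕ) : ZMod (N + 1)) = ((0 : ℕ) : ZMod (N + 1)) := by
      push_cast
      have h3 : (2 : ZMod (N + 1)) = (j + 1) - (j - 1) := by ring
      rw [h3, h1, sub_self]
    have h4 := con3_cast (m := N + 1) 2 0 (by omega) (by omega) h2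
    omega
  have hlt : ∀ i : ZMod N, i.val < N := fun i => ZMod.val_lt i
  have hsv : ∀ i : ZMod N, (i + 1).val = (i.val + 1) % N := by
    intro i
    rw [ZMod.val_add]
    haveI : Fact (1 < N) := ⟨by omega⟩
    rw [ZMod.val_one]
  have hper : ∀ i : ZMod N, ∃ A' : List ({z j}ᶜ : Set V), Ch (G.induce {z j}ᶜ) A' ∧
      (∀ x ∈ A', x ∈ Far (G.induce {z j}ᶜ) ⟨v, hv⟩) ∧
      (∃ x ∈ A', (G.induce {z j}ᶜ).Adj ⟨z (j + 1 + ((i.val : ℕ) : ZMod (N + 1))),
        hne i.val (hlt i)⟩ x) ∧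
      (∃ x ∈ A', (G.induce {z j}ᶜ).Adj ⟨z (j + 1 + (((i + 1).val : ℕ) : ZMod (N + 1))),
        hne (i + 1).val (hlt (i + 1))⟩ x) ∧
      ∀ w : ({z j}ᶜ : Set V), G.Adj v w →
        w ≠ ⟨z (j + 1 + ((i.val : ℕ) : ZMod (N + 1))), hne i.val (hlt i)⟩ →
        w ≠ ⟨z (j + 1 + (((i + 1).val : ℕ) : ZMod (N + 1))), hne (i + 1).val (hlt (i + 1))⟩ →
        ∀ x ∈ A', ¬ (G.induce {z j}ᶜ).Adj w x := by
    intro i
    by_cases hi : i.val + 1 < N
    · have h1 : (i + 1).val = i.val + 1 := by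
        rw [hsv, Nat.mod_eq_of_lt hi]
      have h2 : Lam G v K q (z (j + 1 + ((i.val : ℕ) : ZMod (N + 1))))
          (z (j + 1 + (((i + 1).val : ℕ) : ZMod (N + 1)))) := by
        rw [hLam]
        left
        rw [h1]
        push_cast
        ring
      obtain ⟨c', hc'⟩ := h2
      obtain ⟨A, hA, hLk, hT⟩ := con3_touch hL c' _ _ hc'
      exact con3_lift _ _ A hv (hne i.val (hlt i)) (hne (i + 1).val (hlt (i + 1))) (hnb j)
        (fun x hx => hL.sub c' (hA x hx)) hLk (fun w h3 h4 h5 _ => hT w h3 h4 h5)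
    · have h1 : i.val + 1 = N := by
        have := hlt i
        omega
      have h2 : (i + 1).val = 0 := by
        rw [hsv, h1, Nat.mod_self]
      have h3 : j - 1 = j + 1 + ((i.val : ℕ) : ZMod (N + 1)) := by
        have h4 : ((i.val + 1 + 1 : ℕ) : ZMod (N + 1)) = 0 := by
          rw [h1]
          exact ZMod.natCast_self (N + 1)
        push_cast at h4
        have h5 : j + 1 + ((i.val : ℕ) : ZMod (N + 1)) =
          j - 1 + (((i.val : ℕ) : ZMod (N + 1)) + 1 + 1) := by ring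
        rw [h5, h4, add_zero]
      have h6 : j + 1 = j + 1 + (((i + 1).val : ℕ) : ZMod (N + 1)) := by
        rw [h2, Nat.cast_zero, add_zero]
      obtain ⟨hm1, hm2⟩ := con3_mid hL c (z (j - 1)) (z j) (z (j + 1)) h h' hab
      obtain ⟨A, hA, hLk, hT⟩ := hL.path c (z (j - 1)) h.1 (z (j + 1)) h'.2.1 hab
      have hT' : ∀ w, G.Adj v w → w ≠ z (j - 1) → w ≠ z (j + 1) → w ≠ z j →
          ∀ x ∈ A, ¬ G.Adj w x := by
        intro w h3 h4 h5 h6 x hx h7
        obtain ⟨h8, h9⟩ := (hT w h3 h4 h5).mp ⟨x, hx, h7⟩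
        exact h6 (hm2 w h8 h9)
      rw [h6] at hLk hT'
      rw [h3] at hLk hT'
      exact con3_lift _ _ A hv (hne i.val (hlt i)) (hne (i + 1).val (hlt (i + 1))) (hnb j)
        (fun x hx => hL.sub c (hA x hx)) hLk hT'
  choose A' hA1 hA2 hA3 hA4 hA5 using hper
  have hinj : Function.Injective (fun i : ZMod N =>
      (⟨z (j + 1 + ((i.val : ℕ) : ZMod (N + 1))), hne i.val (hlt i)⟩ : ({z j}ᶜ : Set V))) := by
    intro i i' e
    have h1 := hz (congrArg Subtype.val e)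
    have h2 := add_left_cancel h1
    exact ZMod.val_injective N (con3_cast (m := N + 1) _ _ ((hlt i).trans (Nat.lt_succ_self N))
      ((hlt i').trans (Nat.lt_succ_self N)) h2)
  refine hLC ({z j}ᶜ : Set V) (G.induce {z j}ᶜ) ⟨v, hv⟩ N (fun i : ZMod N =>
      (⟨z (j + 1 + ((i.val : ℕ) : ZMod (N + 1))), hne i.val (hlt i)⟩ : ({z j}ᶜ : Set V))) A'
    (con3_girth _ hG) (hC (z j)) hN hinj (fun i => hnb _) ?_
  intro i
  refine ⟨hA1 i, hA2 i, hA3 i, hA4 i, ?_⟩
  intro k hk hk' x hx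
  exact hA5 i _ (hnb _) (fun e => hk (hinj e)) (fun e => hk' (hinj e)) x hx

/-- the concatenation -/
theorem con3_cat (hCAT : ST_CAT) {V ι : Type} {G : SimpleGraph V} {v : V}
    {K : ι → Set V} {q : ι → V → ℝ} (m : ℕ) (hm : 3 ≤ m) (z : ZMod m → V) (hG : Girth5 G)
    (hL : Loc G v K q) (hz : Function.Injective z) (hnb : ∀ i, G.Adj v (z i))
    (c : ZMod m → ι) (hc : Function.Injective c) (A : ZMod m → List V)
    (hAK : ∀ i, ∀ x ∈ A i, x ∈ K (c i)) (hAL : ∀ i, Link G (z i) (A i) (z (i + 1)))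
    (hAT : ∀ i, ∀ n, G.Adj v n → n ≠ z i → n ≠ z (i + 1) → ∀ x ∈ A i, ¬ G.Adj n x)
    (k : ℕ) (hk1 : 1 ≤ k) (hkm : k + 1 ≤ m) :
    ∃ X : List V, Link G (z ((0 : ℕ) : ZMod m)) X (z ((k : ℕ) : ZMod m)) ∧
      (∀ x ∈ X, (∃ i, i < k ∧ x ∈ A ((i : ℕ) : ZMod m)) ∨
        (∃ i, 0 < i ∧ i < k ∧ x = z ((i : ℕ) : ZMod m))) ∧
      (∀ i, 0 < i → i < k → z ((i : ℕ) : ZMod m) ∈ X) := by
  have hzz : ∀ i j : ℕ, i < m → j < m → i ≠ j → z ((i : ℕ) : ZMod m) ≠ z ((j : ℕ) : ZMod m) :=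
    fun i j hi hj hij e => hij (con3_cast i j hi hj (hz e))
  have hza : ∀ i j : ZMod m, ¬ G.Adj (z i) (z j) := by
    intro i j h
    exact hG.1 (z i) v (z j) (hnb i).symm (hnb j) h
  induction k, hk1 using Nat.le_induction with
  | base =>
    refine ⟨A ((0 : ℕ) : ZMod m), ?_, ?_, ?_⟩
    · have h1 := hAL ((0 : ℕ) : ZMod m)
      have h2 : (((0 : ℕ) : ZMod m)) + 1 = ((1 : ℕ) : ZMod m) := by push_cast; ring
      rw [h2] at h1
      exact h1
    · intro x hx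
      exact Or.inl ⟨0, Nat.one_pos, hx⟩
    · intro i h1 h2
      omega
  | succ k hk1 ih =>
    obtain ⟨X, hX1, hX2, hX3⟩ := ih (by omega)
    have hs : (((k : ℕ) : ZMod m)) + 1 = (((k + 1 : ℕ)) : ZMod m) := by push_cast; ring
    have hF : ∀ i, ∀ x ∈ A i, x ∈ Far G v := fun i x hx => hL.sub _ (hAK i x hx)
    have hzF : ∀ i j, ∀ x ∈ A i, z j ≠ x := by
      intro i j x hx e
      exact (hF i x hx).2 (e ▸ hnb j)
    refine ⟨X ++ z ((k : ℕ) : ZMod m) :: A ((k : ℕ) : ZMod m), ?_, ?_, ?_⟩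
    · have hB := hAL ((k : ℕ) : ZMod m)
      rw [hs] at hB
      have hT := hAT ((k : ℕ) : ZMod m)
      rw [hs] at hT
      refine hCAT V G _ _ _ X _ hX1 hB ?_ ?_ ?_ (hzz 0 k (by omega) (by omega) (by omega))
        (hza _ _) (hzz (k + 1) k (by omega) (by omega) (by omega)) (hza _ _)
      · intro a ha b hb
        rcases hX2 a ha with ⟨i, hi, hai⟩ | ⟨i, hi0, hi, rfl⟩
        · exact hL.sep _ _ (fun e => by
            have h1 := con3_cast i k (by omega) (by omega) (hc e)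
            omega) a (hAK _ a hai) b (hAK _ b hb)
        · exact ⟨hzF _ _ b hb, hT _ (hnb _) (hzz i k (by omega) (by omega) (by omega))
            (hzz i (k + 1) (by omega) (by omega) (by omega)) b hb⟩
      · intro a ha b hb
        rw [List.mem_singleton] at ha
        subst ha
        exact ⟨hzF _ _ b hb, hT _ (hnb _) (hzz 0 k (by omega) (by omega) (by omega))
            (hzz 0 (k + 1) (by omega) (by omega) (by omega)) b hb⟩
      · intro a ha b hb
        rw [List.mem_singleton] at ha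
        subst ha
        rcases hX2 b hb with ⟨i, hi, hbi⟩ | ⟨i, hi0, hi, rfl⟩
        · have hs' : (((i : ℕ) : ZMod m)) + 1 = (((i + 1 : ℕ)) : ZMod m) := by push_cast; ring
          have hT' := hAT ((i : ℕ) : ZMod m)
          rw [hs'] at hT'
          exact ⟨hzF _ _ b hbi, hT' _ (hnb _) (hzz (k + 1) i (by omega) (by omega) (by omega))
            (hzz (k + 1) (i + 1) (by omega) (by omega) (by omega)) b hbi⟩
        · exact ⟨hzz (k + 1) i (by omega) (by omega) (by omega), hza _ _⟩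
    · intro x hx
      rw [List.mem_append, List.mem_cons] at hx
      rcases hx with hx | rfl | hx
      · rcases hX2 x hx with ⟨i, hi, hai⟩ | ⟨i, hi0, hi, rfl⟩
        · exact Or.inl ⟨i, by omega, hai⟩
        · exact Or.inr ⟨i, hi0, by omega, rfl⟩
      · exact Or.inr ⟨k, by omega, by omega, rfl⟩
      · exact Or.inl ⟨k, by omega, hx⟩
    · intro i hi0 hi
      rw [List.mem_append, List.mem_cons]
      rcases Nat.lt_or_ge i k with h | h
      · exact Or.inl (hX3 i hi0 h)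
      · obtain rfl : i = k := by omega
        exact Or.inr (Or.inl rfl)

/-- no piece has a middle element -/
theorem con3_b (hCAT : ST_CAT) (hCY2 : ST_CY2) (hREV : ST_REV) {V ι : Type} [Finite V]
    {G : SimpleGraph V} {v : V}
    {K : ι → Set V} {q : ι → V → ℝ} (m : ℕ) (hm : 3 ≤ m) (z : ZMod m → V) (hG : Girth5 G)
    (hL : Loc G v K q) (hz : Function.Injective z) (hnb : ∀ i, G.Adj v (z i))
    (hLam : ∀ i, Lam G v K q (z i) (z (i + 1)))
    (hnm : ∀ c a n b, Cons G v (K c) (q c) a n → Cons G v (K c) (q c) n b → a = b) :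
    HasW G := by
  have hLam' : ∀ i, ∃ c, Cons G v (K c) (q c) (z i) (z (i + 1)) := hLam
  choose c hc using hLam'
  have hP := fun i => con3_touch hL (c i) _ _ (hc i)
  choose A hAK hAL hAT using hP
  have h20 : (2 : ZMod m) ≠ 0 := by
    intro e
    have h1 : ((2 : ℕ) : ZMod m) = ((0 : ℕ) : ZMod m) := by
      push_cast
      exact e
    have := con3_cast 2 0 (by omega) (by omega) h1
    omega
  have h10 : (1 : ZMod m) ≠ 0 := by
    intro e
    have h1 : ((1 : ℕ) : ZMod m) = ((0 : ℕ) : ZMod m) := by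
      push_cast
      exact e
    have := con3_cast 1 0 (by omega) (by omega) h1
    omega
  have hcinj : Function.Injective c := by
    intro i j e
    by_contra hij
    have h1 := hc i
    have h2 := hc j
    rw [← e] at h2
    have h3 : z i ≠ z (i + 1) := h1.2.2.1
    have h4 : z i ≠ z j := fun e => hij (hz e)
    by_cases h5 : z (i + 1) = z j
    · by_cases h6 : z i = z (j + 1)
      · have h7 := hz h5
        have h8 := hz h6
        apply h20
        have h9 : (2 : ZMod m) = (i + 1 + 1) - i := by ring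
        rw [h9, h7, ← h8, sub_self]
      · exact con3_two hL (c i) (hnm (c i)) (z i) (z (i + 1)) (z (j + 1)) h1.1 h1.2.1 h2.2.1 h3 h6
          (by rw [h5]; exact h2.2.2.1)
    · exact con3_two hL (c i) (hnm (c i)) (z i) (z (i + 1)) (z j) h1.1 h1.2.1 h2.1 h3 h4 h5
  obtain ⟨X, hX1, hX2, hX3⟩ := con3_cat hCAT m hm z hG hL hz hnb c hcinj A hAK hAL hAT (m - 1)
    (by omega) (by omega)
  have hzz : ∀ i j : ℕ, i < m → j < m → i ≠ j → z ((i : ℕ) : ZMod m) ≠ z ((j : ℕ) : ZMod m) :=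
    fun i j hi hj hij e => hij (con3_cast i j hi hj (hz e))
  have hza : ∀ i j : ZMod m, ¬ G.Adj (z i) (z j) := by
    intro i j h
    exact hG.1 (z i) v (z j) (hnb i).symm (hnb j) h
  have hF : ∀ i, ∀ x ∈ A i, x ∈ Far G v := fun i x hx => hL.sub _ (hAK i x hx)
  have hzF : ∀ i j, ∀ x ∈ A i, z j ≠ x := by
    intro i j x hx e
    exact (hF i x hx).2 (e ▸ hnb j)
  have hs : (((m - 1 : ℕ) : ZMod m)) + 1 = (((0 : ℕ)) : ZMod m) := by
    have h1 : (((m - 1 : ℕ) : ZMod m)) + 1 = ((m - 1 + 1 : ℕ) : ZMod m) := by push_cast; ring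
    rw [h1, Nat.sub_add_cancel (by omega), ZMod.natCast_self, Nat.cast_zero]
  have hB := hAL ((m - 1 : ℕ) : ZMod m)
  have hT := hAT ((m - 1 : ℕ) : ZMod m)
  rw [hs] at hB hT
  have hB' := hREV V G _ _ _ hB
  have hanti : Anti G X (A ((m - 1 : ℕ) : ZMod m)).reverse := by
    intro a ha b hb
    rw [List.mem_reverse] at hb
    rcases hX2 a ha with ⟨i, hi, hai⟩ | ⟨i, hi0, hi, rfl⟩
    · exact hL.sep _ _ (fun e => by
        have h1 := con3_cast i (m - 1) (by omega) (by omega) (hcinj e)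
        omega) a (hAK _ a hai) b (hAK _ b hb)
    · exact ⟨hzF _ _ b hb, hT _ (hnb _) (hzz i (m - 1) (by omega) (by omega) (by omega))
        (hzz i 0 (by omega) (by omega) (by omega)) b hb⟩
  have hIC := hCY2 V G _ _ X _ hX1 hB' hanti (hzz 0 (m - 1) (by omega) (by omega) (by omega))
    (hza _ _)
  rw [List.reverse_reverse] at hIC
  refine ⟨v, _, z ((0 : ℕ) : ZMod m), z ((1 : ℕ) : ZMod m), z ((m - 1 : ℕ) : ZMod m), hIC,
    ?_, ?_, ?_, ?_, hzz 0 1 (by omega) (by omega) (by omega),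
    hzz 0 (m - 1) (by omega) (by omega) (by omega),
    hzz 1 (m - 1) (by omega) (by omega) (by omega), hnb _, hnb _, hnb _⟩
  · intro hv
    rw [List.mem_cons, List.mem_append, List.mem_cons] at hv
    have hvz : ∀ i, v ≠ z i := fun i e => G.loopless.irrefl v (by
      have := hnb i
      rw [← e] at this
      exact this)
    rcases hv with h | h | h | h
    · exact hvz _ h
    · rcases hX2 v h with ⟨i, hi, hai⟩ | ⟨i, hi0, hi, h'⟩
      · exact (hF _ v hai).1 rfl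
      · exact hvz _ h'
    · exact hvz _ h
    · exact (hF _ v h).1 rfl
  · exact List.mem_cons_self
  · rw [List.mem_cons, List.mem_append]
    exact Or.inr (Or.inl (hX3 1 (by omega) (by omega)))
  · rw [List.mem_cons, List.mem_append, List.mem_cons]
    exact Or.inr (Or.inr (Or.inl rfl))

theorem st_CON3 (hLC : ST_LC) (hHUB : ST_HUB) (hCAT : ST_CAT) (hCY2 : ST_CY2) (hREV : ST_REV) :
    ST_CON3 := by
  intro V _ G v ι K q m z hG hL hC hm hz hnb hLam
  have hnb' : ∀ i, G.Adj v (z i) := fun i => (hnb (z i)).mpr ⟨i, rfl⟩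
  by_cases hmid : ∀ c a n b, Cons G v (K c) (q c) a n → Cons G v (K c) (q c) n b → a = b
  · exact Or.inl (con3_b hCAT hCY2 hREV m hm z hG hL hz hnb'
      (fun i => (hLam i (i + 1)).mpr (Or.inl rfl)) hmid)
  · push Not at hmid
    obtain ⟨c, a, n, b, h1, h2, hab⟩ := hmid
    obtain ⟨i, rfl⟩ := (hnb a).mp h1.1.1
    obtain ⟨j, rfl⟩ := (hnb n).mp h1.2.1.1
    obtain ⟨k, rfl⟩ := (hnb b).mp h2.2.1.1
    have h3 := (hLam i j).mp ⟨c, h1⟩
    have h4 := (hLam j k).mp ⟨c, h2⟩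
    have hik : i ≠ k := fun e => hab (by rw [e])
    have key : Cons G v (K c) (q c) (z (j - 1)) (z j) ∧
        Cons G v (K c) (q c) (z j) (z (j + 1)) := by
      rcases h3 with h3 | h3
      · have h5 : i = j - 1 := by rw [h3]; ring
        rcases h4 with h4 | h4
        · rw [← h5, ← h4]
          exact ⟨h1, h2⟩
        · exfalso
          apply hik
          rw [h5, h4]
          ring
      · rcases h4 with h4 | h4
        · exact absurd (h3.trans h4.symm) hik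
        · have h5 : k = j - 1 := by rw [h4]; ring
          rw [← h5, ← h3]
          exact ⟨con3_symm h2, con3_symm h1⟩
    obtain ⟨k1, k2⟩ := key
    rcases Nat.lt_or_ge m 4 with hm4 | hm4
    · obtain rfl : m = 3 := by omega
      refine con3_a3 hHUB hG hL c (z (j - 1)) (z j) (z (j + 1)) k1 k2 ?_ ?_
      · intro e
        have h5 := hz e
        revert h5
        generalize j = j'
        revert j'
        decide
      · rw [hLam]
        right
        generalize j = j'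
        revert j'
        decide
    · obtain ⟨N, rfl⟩ : ∃ N, m = N + 1 := ⟨m - 1, by omega⟩
      exact (con3_a4 hLC N (by omega) z hG hL hC hz hnb' hLam j c k1 k2).elim

end Pool.Agent.Helper64.HG
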