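import Pool.Agent.Helper64.HG.Stmts

set_option autoImplicit false

namespace Pool.Agent.Helper64.HG

variable {V : Type}

theorem lst_head {A : List V} (hA : A.Nodup) (i : ℕ) (hi : i < A.length) :
    A.head? = some A[i] ↔ i = 0 := by
  rw [List.head?_eq_getElem?, List.getElem?_eq_getElem (by omega : 0 < A.length),
    Option.some_inj, hA.getElem_inj_iff]
  exact eq_comm

theorem lst_last {A : List V} (hA : A.Nodup) (i : ℕ) (hi : i < A.length) :
    A.getLast? = some A[i] ↔ i + 1 = A.length := by
  rw [List.getLast?_eq_getElem?, List.getElem?_eq_getElem (by omega : A.length - 1 < A.length),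
    Option.some_inj, hA.getElem_inj_iff]
  omega

theorem lst_ip_append (G : SimpleGraph V) (A B : List V) : IP G (A ++ B) ↔
    IP G A ∧ IP G B ∧ ∀ a ∈ A, ∀ b ∈ B, a ≠ b ∧
      (G.Adj a b ↔ (A.getLast? = some a ∧ B.head? = some b)) := by
  constructor
  · rintro ⟨h1, h2⟩
    obtain ⟨n1, n2, n3⟩ := List.nodup_append.mp h1
    refine ⟨⟨n1, ?_⟩, ⟨n2, ?_⟩, ?_⟩
    · intro i j hi hj hij
      have h3 := h2 i j (by rw [List.length_append]; omega) (by rw [List.length_append]; omega) hij
      rw [List.getElem_append_left hi, List.getElem_append_left hj] at h3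
      exact h3
    · intro i j hi hj hij
      have h3 := h2 (A.length + i) (A.length + j) (by rw [List.length_append]; omega)
        (by rw [List.length_append]; omega) (by omega)
      rw [List.getElem_append_right (by omega), List.getElem_append_right (by omega)] at h3
      simp only [Nat.add_sub_cancel_left] at h3
      rw [h3]
      omega
    · intro a ha b hb
      refine ⟨n3 a ha b hb, ?_⟩
      obtain ⟨i, hi, rfl⟩ := List.getElem_of_mem ha
      obtain ⟨j, hj, rfl⟩ := List.getElem_of_mem hb
      have h3 := h2 i (A.length + j) (by rw [List.length_append]; omega)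
        (by rw [List.length_append]; omega) (by omega)
      rw [List.getElem_append_left hi, List.getElem_append_right (by omega)] at h3
      simp only [Nat.add_sub_cancel_left] at h3
      rw [h3, lst_head n2, lst_last n1]
      omega
  · rintro ⟨⟨n1, h1⟩, ⟨n2, h2⟩, h3⟩
    refine ⟨List.nodup_append.mpr ⟨n1, n2, fun a ha b hb => (h3 a ha b hb).1⟩, ?_⟩
    intro i j hi hj hij
    rw [List.length_append] at hi hj
    by_cases hj' : j < A.length
    · rw [List.getElem_append_left (by omega : i < A.length), List.getElem_append_left hj']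
      exact h1 i j (by omega) hj' hij
    · by_cases hi' : i < A.length
      · rw [List.getElem_append_left hi', List.getElem_append_right (by omega)]
        rw [(h3 _ (List.getElem_mem hi') _ (List.getElem_mem (by omega))).2, lst_head n2,
          lst_last n1]
        omega
      · rw [List.getElem_append_right (by omega), List.getElem_append_right (by omega)]
        rw [h2 (i - A.length) (j - A.length) (by omega) (by omega) (by omega)]
        omega

theorem lst_ip_single (G : SimpleGraph V) (x : V) : IP G [x] := by
  refine ⟨List.nodup_singleton x, ?_⟩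
  intro i j hi hj hij
  simp only [List.length_singleton] at hi hj
  omega

theorem lst_ip_nil (G : SimpleGraph V) : IP G ([] : List V) := by
  refine ⟨List.nodup_nil, ?_⟩
  intro i j hi hj hij
  simp only [List.length_nil] at hi hj
  omega

theorem lst_ip_cons (G : SimpleGraph V) (x : V) (M : List V) : IP G (x :: M) ↔
    x ∉ M ∧ IP G M ∧ ∀ y ∈ M, (G.Adj x y ↔ M.head? = some y) := by
  have h := lst_ip_append G [x] M
  rw [List.singleton_append] at h
  rw [h]
  constructor
  · rintro ⟨_, h1, h2⟩
    refine ⟨fun hx => (h2 x (List.mem_singleton_self x) x hx).1 rfl, h1, fun y hy => ?_⟩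
    rw [(h2 x (List.mem_singleton_self x) y hy).2]
    simp only [List.getLast?_singleton, true_and]
  · rintro ⟨h1, h2, h3⟩
    refine ⟨lst_ip_single G x, h2, fun a ha b hb => ?_⟩
    rw [List.mem_singleton] at ha
    subst ha
    refine ⟨fun e => h1 (e ▸ hb), ?_⟩
    rw [h3 b hb]
    simp only [List.getLast?_singleton, true_and]

theorem lst_ip_rev (G : SimpleGraph V) (A : List V) (h : IP G A) : IP G A.reverse := by
  induction A with
  | nil => exact lst_ip_nil G
  | cons x M ih =>
    rw [lst_ip_cons] at h
    obtain ⟨h1, h2, h3⟩ := h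
    rw [List.reverse_cons, lst_ip_append]
    refine ⟨ih h2, lst_ip_single G x, fun a ha b hb => ?_⟩
    rw [List.mem_singleton] at hb
    subst hb
    rw [List.mem_reverse] at ha
    refine ⟨fun e => h1 (e ▸ ha), ?_⟩
    rw [G.adj_comm, h3 a ha, List.getLast?_reverse]
    simp only [List.head?_cons, and_true]

theorem st_REV : ST_REV := by
  rintro V G u w A ⟨h1, h2, h3, h4, h5, h6⟩
  refine ⟨fun e => h1 (List.reverse_eq_nil_iff.mp e), lst_ip_rev G A h2,
    fun e => h4 (List.mem_reverse.mp e), fun e => h3 (List.mem_reverse.mp e), ?_, ?_⟩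
  · intro x hx
    rw [h6 x (List.mem_reverse.mp hx), List.head?_reverse]
  · intro x hx
    rw [h5 x (List.mem_reverse.mp hx), List.getLast?_reverse]

theorem lst_head_append {A B : List V} (hA : A ≠ []) : (A ++ B).head? = A.head? := by
  cases A with
  | nil => exact absurd rfl hA
  | cons a A => rfl

theorem lst_last_append {A B : List V} (hB : B ≠ []) : (A ++ B).getLast? = B.getLast? := by
  rw [List.getLast?_append, List.getLast?_eq_some_getLast hB]
  rfl

theorem lst_last_cons {x : V} {B : List V} (hB : B ≠ []) : (x :: B).getLast? = B.getLast? := by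
  rw [← List.singleton_append]
  exact lst_last_append hB

theorem st_CAT : ST_CAT := by
  rintro V G u x w A B ⟨a1, a2, a3, a4, a5, a6⟩ ⟨b1, b2, b3, b4, b5, b6⟩ hAB huB hwA hux hux' hwx hwx'
  refine ⟨by simp only [ne_eq, List.append_eq_nil_iff, reduceCtorEq, and_false,
    not_false_eq_true], ?_, ?_, ?_, ?_, ?_⟩
  · rw [lst_ip_append, lst_ip_cons]
    refine ⟨a2, ⟨b3, b2, b5⟩, ?_⟩
    intro a ha b hb
    rw [List.mem_cons] at hb
    rcases hb with rfl | hb
    · refine ⟨fun e => a4 (e ▸ ha), ?_⟩
      rw [G.adj_comm, a6 a ha]
      simp only [List.head?_cons, and_true]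
    · refine ⟨(hAB a ha b hb).1, ?_⟩
      constructor
      · intro h
        exact absurd h (hAB a ha b hb).2
      · rintro ⟨_, h⟩
        rw [List.head?_cons, Option.some_inj] at h
        exact absurd (h ▸ hb) b3
  · rw [List.mem_append, List.mem_cons]
    rintro (h | h | h)
    · exact a3 h
    · exact hux h
    · exact (huB u (List.mem_singleton_self u) u h).1 rfl
  · rw [List.mem_append, List.mem_cons]
    rintro (h | h | h)
    · exact (hwA w (List.mem_singleton_self w) w h).1 rfl
    · exact hwx h
    · exact b4 h
  · intro y hy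
    rw [lst_head_append a1]
    rw [List.mem_append, List.mem_cons] at hy
    rcases hy with hy | rfl | hy
    · exact a5 y hy
    · constructor
      · intro h
        exact absurd h hux'
      · intro h
        exact absurd (List.mem_of_head? h) a4
    · constructor
      · intro h
        exact absurd h (huB u (List.mem_singleton_self u) y hy).2
      · intro h
        exact absurd rfl (hAB y (List.mem_of_head? h) y hy).1
  · intro y hy
    rw [lst_last_append (List.cons_ne_nil x B), lst_last_cons b1]
    rw [List.mem_append, List.mem_cons] at hy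
    rcases hy with hy | rfl | hy
    · constructor
      · intro h
        exact absurd h (hwA w (List.mem_singleton_self w) y hy).2
      · intro h
        exact absurd rfl (hAB y hy y (List.mem_of_getLast? h)).1
    · constructor
      · intro h
        exact absurd h hwx'
      · intro h
        exact absurd (List.mem_of_getLast? h) b3
    · exact b6 y hy

theorem st_CNS : ST_CNS := by
  rintro V G u x w B hux ⟨b1, b2, b3, b4, b5, b6⟩ huB hwx hwx'
  refine ⟨List.cons_ne_nil x B, ?_, ?_, ?_, ?_, ?_⟩
  · rw [lst_ip_cons]
    exact ⟨b3, b2, b5⟩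
  · rw [List.mem_cons]
    rintro (h | h)
    · exact G.ne_of_adj hux h
    · exact (huB u (List.mem_singleton_self u) u h).1 rfl
  · rw [List.mem_cons]
    rintro (h | h)
    · exact hwx h
    · exact b4 h
  · intro y hy
    rw [List.head?_cons, Option.some_inj]
    rw [List.mem_cons] at hy
    rcases hy with rfl | hy
    · exact ⟨fun _ => rfl, fun _ => hux⟩
    · constructor
      · intro h
        exact absurd h (huB u (List.mem_singleton_self u) y hy).2
      · rintro rfl
        exact absurd hy b3
  · intro y hy
    rw [lst_last_cons b1]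
    rw [List.mem_cons] at hy
    rcases hy with rfl | hy
    · constructor
      · intro h
        exact absurd h hwx'
      · intro h
        exact absurd (List.mem_of_getLast? h) b3
    · exact b6 y hy

theorem st_SNC : ST_SNC := by
  intro V G u x w A hA hxw hwA hux hux'
  have h := st_CNS V G w x u A.reverse hxw.symm (st_REV V G u x A hA)
    (by
      intro a ha b hb
      exact hwA a ha b (List.mem_reverse.mp hb)) hux hux'
  have h2 := st_REV V G w u _ h
  rw [List.reverse_cons, List.reverse_reverse] at h2
  exact h2

theorem st_SPL : ST_SPL := by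
  rintro V G u x w A B ⟨h1, h2, h3, h4, h5, h6⟩
  rw [lst_ip_append, lst_ip_cons] at h2
  obtain ⟨a2, ⟨b3, b2, b5⟩, hab⟩ := h2
  rw [List.mem_append, List.mem_cons] at h3 h4
  push Not at h3 h4
  have hxm : x ∈ A ++ x :: B := by
    rw [List.mem_append, List.mem_cons]
    exact Or.inr (Or.inl rfl)
  have hAm : ∀ a ∈ A, a ∈ A ++ x :: B := fun a ha => List.mem_append_left _ ha
  have hBm : ∀ b ∈ B, b ∈ A ++ x :: B := fun b hb =>
    List.mem_append_right _ (List.mem_cons_of_mem x hb)
  have hxA : x ∉ A := fun h => (hab x h x List.mem_cons_self).1 rfl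
  have hAB : Anti G A B := by
    intro a ha b hb
    obtain ⟨k1, k2⟩ := hab a ha b (List.mem_cons_of_mem x hb)
    refine ⟨k1, fun h => ?_⟩
    have k3 := (k2.mp h).2
    rw [List.head?_cons, Option.some_inj] at k3
    exact b3 (k3 ▸ hb)
  refine ⟨?_, ?_, ?_, ?_, hAB, ?_, ?_, h3.2.1, h4.2.1⟩
  · rintro rfl
    exact (h5 x hxm).mpr rfl
  · intro hA
    refine ⟨⟨hA, a2, h3.1, hxA, ?_, ?_⟩, ?_⟩
    · intro y hy
      rw [h5 y (hAm y hy), lst_head_append hA]
    · intro y hy
      rw [G.adj_comm, (hab y hy x List.mem_cons_self).2]
      simp only [List.head?_cons, and_true]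
    · intro h
      have h7 := (h5 x hxm).mp h
      rw [lst_head_append hA] at h7
      exact hxA (List.mem_of_head? h7)
  · rintro rfl
    refine ((h6 x hxm).mpr ?_).symm
    rw [List.getLast?_append]
    rfl
  · intro hB
    have hl : (A ++ x :: B).getLast? = B.getLast? := by
      rw [lst_last_append (List.cons_ne_nil x B), lst_last_cons hB]
    refine ⟨⟨hB, b2, b3, h4.2.2, b5, ?_⟩, ?_⟩
    · intro y hy
      rw [h6 y (hBm y hy), hl]
    · intro h
      have h7 := (h6 x hxm).mp h.symm
      rw [hl] at h7
      exact b3 (List.mem_of_getLast? h7)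
  · intro a ha b hb
    rw [List.mem_singleton] at ha
    subst ha
    refine ⟨fun e => h3.2.2 (e ▸ hb), fun h => ?_⟩
    have h7 := (h5 b (hBm b hb)).mp h
    by_cases hA : A = []
    · subst hA
      rw [List.nil_append, List.head?_cons, Option.some_inj] at h7
      exact b3 (h7 ▸ hb)
    · rw [lst_head_append hA] at h7
      exact (hAB b (List.mem_of_head? h7) b hb).1 rfl
  · intro a ha b hb
    rw [List.mem_singleton] at ha
    subst ha
    refine ⟨fun e => h4.1 (e ▸ hb), fun h => ?_⟩
    have h7 := (h6 b (hAm b hb)).mp h
    rw [lst_last_append (List.cons_ne_nil x B)] at h7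
    exact (hab b hb b (List.mem_of_getLast? h7)).1 rfl

/-! ### Cycles -/

theorem lst_ic_cons (G : SimpleGraph V) (x : V) (M : List V) : IC G (x :: M) ↔
    2 ≤ M.length ∧ x ∉ M ∧ IP G M ∧
      ∀ y ∈ M, (G.Adj x y ↔ (M.head? = some y ∨ M.getLast? = some y)) := by
  constructor
  · rintro ⟨h1, h2, h3⟩
    rw [List.length_cons] at h1
    obtain ⟨n1, n2⟩ := List.nodup_cons.mp h2
    refine ⟨by omega, n1, ⟨n2, ?_⟩, ?_⟩
    · intro i j hi hj hij
      have h4 := h3 (i + 1) (j + 1) (by rw [List.length_cons]; omega)
        (by rw [List.length_cons]; omega) (by omega)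
      simp only [List.getElem_cons_succ, List.length_cons] at h4
      rw [h4]
      omega
    · intro y hy
      obtain ⟨j, hj, rfl⟩ := List.getElem_of_mem hy
      have h4 := h3 0 (j + 1) (by rw [List.length_cons]; omega)
        (by rw [List.length_cons]; omega) (by omega)
      simp only [List.getElem_cons_succ, List.getElem_cons_zero, List.length_cons] at h4
      rw [h4, lst_head n2, lst_last n2, true_and]
      omega
  · rintro ⟨h1, h2, ⟨h3, h4⟩, h5⟩
    refine ⟨by rw [List.length_cons]; omega, List.nodup_cons.mpr ⟨h2, h3⟩, ?_⟩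
    intro i j hi hj hij
    rw [List.length_cons] at hi hj
    cases j with
    | zero => omega
    | succ j =>
      cases i with
      | zero =>
        simp only [List.getElem_cons_succ, List.getElem_cons_zero, List.length_cons]
        rw [h5 _ (List.getElem_mem (by omega)), lst_head h3, lst_last h3, true_and]
        omega
      | succ i =>
        simp only [List.getElem_cons_succ, List.length_cons]
        rw [h4 i j (by omega) (by omega) (by omega)]
        omega

theorem st_CY1 : ST_CY1 := by
  rintro V G u w A ⟨h1, h2, h3, h4, h5, h6⟩ huw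
  rw [lst_ic_cons, lst_ip_append]
  refine ⟨?_, ?_, ⟨h2, lst_ip_single G w, ?_⟩, ?_⟩
  · have := List.length_pos_of_ne_nil h1
    rw [List.length_append, List.length_singleton]
    omega
  · rw [List.mem_append, List.mem_singleton]
    rintro (h | h)
    · exact h3 h
    · exact G.ne_of_adj huw h
  · intro a ha b hb
    rw [List.mem_singleton] at hb
    subst hb
    refine ⟨fun e => h4 (e ▸ ha), ?_⟩
    rw [G.adj_comm, h6 a ha]
    simp only [List.head?_cons, and_true]
  · intro y hy
    rw [lst_head_append h1, List.getLast?_append, List.getLast?_singleton]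
    rw [List.mem_append, List.mem_singleton] at hy
    rcases hy with hy | rfl
    · rw [h5 y hy]
      constructor
      · exact Or.inl
      · rintro (h | h)
        · exact h
        · have h' : w = y := Option.some_inj.mp h
          exact absurd (h' ▸ hy) h4
    · exact ⟨fun _ => Or.inr rfl, fun _ => huw⟩

theorem st_CY2 : ST_CY2 := by
  intro V G u w A B hA hB hAB huw huw'
  have hB' := st_REV V G u w B hB
  obtain ⟨a1, a2, a3, a4, a5, a6⟩ := hA
  obtain ⟨b1, b2, b3, b4, b5, b6⟩ := hB'
  have hAB' : Anti G A B.reverse := fun a ha b hb => hAB a ha b (List.mem_reverse.mp hb)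
  generalize B.reverse = C at *
  rw [lst_ic_cons, lst_ip_append, lst_ip_cons]
  refine ⟨?_, ?_, ⟨a2, ⟨b3, b2, b5⟩, ?_⟩, ?_⟩
  · have := List.length_pos_of_ne_nil a1
    rw [List.length_append, List.length_cons]
    omega
  · rw [List.mem_append, List.mem_cons]
    rintro (h | h | h)
    · exact a3 h
    · exact huw h
    · exact b4 h
  · intro a ha b hb
    rw [List.mem_cons] at hb
    rcases hb with rfl | hb
    · refine ⟨fun e => a4 (e ▸ ha), ?_⟩
      rw [G.adj_comm, a6 a ha]
      simp only [List.head?_cons, and_true]
    · refine ⟨(hAB' a ha b hb).1, ?_⟩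
      constructor
      · intro h
        exact absurd h (hAB' a ha b hb).2
      · rintro ⟨_, h⟩
        rw [List.head?_cons, Option.some_inj] at h
        exact absurd (h ▸ hb) b3
  · intro y hy
    rw [lst_head_append a1, lst_last_append (List.cons_ne_nil w C), lst_last_cons b1]
    rw [List.mem_append, List.mem_cons] at hy
    rcases hy with hy | rfl | hy
    · rw [a5 y hy]
      constructor
      · exact Or.inl
      · rintro (h | h)
        · exact h
        · exact absurd rfl (hAB' y hy y (List.mem_of_getLast? h)).1
    · constructor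
      · intro h
        exact absurd h huw'
      · rintro (h | h)
        · exact absurd (List.mem_of_head? h) a4
        · exact absurd (List.mem_of_getLast? h) b3
    · rw [b6 y hy]
      constructor
      · exact Or.inr
      · rintro (h | h)
        · exact absurd rfl (hAB' y (List.mem_of_head? h) y hy).1
        · exact h

/-- rotation by one -/
theorem lst_rot1 (G : SimpleGraph V) (x : V) (M : List V) (h : IC G (x :: M)) :
    IC G (M ++ [x]) := by
  rw [lst_ic_cons] at h
  obtain ⟨h1, h2, h3, h4⟩ := h
  cases M with
  | nil => simp only [List.length_nil] at h1; omega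
  | cons y M =>
    rw [List.length_cons] at h1
    have hM : M ≠ [] := by
      rintro rfl
      simp only [List.length_nil] at h1
      omega
    rw [lst_ip_cons] at h3
    obtain ⟨k1, k2, k3⟩ := h3
    rw [List.mem_cons] at h2
    push Not at h2
    rw [List.cons_append, lst_ic_cons, lst_ip_append]
    refine ⟨?_, ?_, ⟨k2, lst_ip_single G x, ?_⟩, ?_⟩
    · rw [List.length_append, List.length_singleton]
      omega
    · rw [List.mem_append, List.mem_singleton]
      rintro (h | h)
      · exact k1 h
      · exact h2.1 h.symm
    · intro a ha b hb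
      rw [List.mem_singleton] at hb
      subst hb
      refine ⟨fun e => h2.2 (e ▸ ha), ?_⟩
      rw [G.adj_comm, h4 a (List.mem_cons_of_mem y ha), lst_last_cons hM]
      simp only [List.head?_cons, and_true]
      constructor
      · rintro (h | h)
        · exact absurd ((Option.some_inj.mp h) ▸ ha) k1
        · exact h
      · exact Or.inr
    · intro z hz
      rw [lst_head_append hM, List.getLast?_append, List.getLast?_singleton]
      rw [List.mem_append, List.mem_singleton] at hz
      rcases hz with hz | rfl
      · rw [k3 z hz]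
        constructor
        · exact Or.inl
        · rintro (h | h)
          · exact h
          · have h' : x = z := Option.some_inj.mp h
            exact absurd (h' ▸ hz) h2.2
      · constructor
        · exact fun _ => Or.inr rfl
        · intro _
          exact ((h4 y List.mem_cons_self).mpr (Or.inl rfl)).symm

theorem lst_rot (G : SimpleGraph V) (A B : List V) (h : IC G (A ++ B)) : IC G (B ++ A) := by
  induction A generalizing B with
  | nil => rw [List.append_nil]; exact h
  | cons x A ih =>
    have h1 := lst_rot1 G x (A ++ B) h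
    rw [List.append_assoc] at h1
    have h2 := ih (B ++ [x]) h1
    rw [List.append_assoc, List.singleton_append] at h2
    exact h2

theorem lst_first (G : SimpleGraph V) (L : List V) (u : V) (h : IC G L) (hu : u ∈ L) :
    ∃ M : List V, IC G (u :: M) ∧ ∀ x, x ∈ L ↔ (x = u ∨ x ∈ M) := by
  obtain ⟨A, B, rfl⟩ := List.append_of_mem hu
  refine ⟨B ++ A, lst_rot G A (u :: B) h, fun x => ?_⟩
  rw [List.mem_append, List.mem_cons, List.mem_append]
  tauto

theorem st_SP2 : ST_SP2 := by
  intro V G L u w hL hu hw huw huw'
  obtain ⟨M, hM, hm⟩ := lst_first G L u hL hu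
  have hwM : w ∈ M := by
    rcases (hm w).mp hw with h | h
    · exact absurd h.symm huw
    · exact h
  rw [lst_ic_cons] at hM
  obtain ⟨h1, h2, h3, h4⟩ := hM
  obtain ⟨A, C, rfl⟩ := List.append_of_mem hwM
  rw [lst_ip_append, lst_ip_cons] at h3
  obtain ⟨a2, ⟨b3, b2, b5⟩, hab⟩ := h3
  rw [List.mem_append, List.mem_cons] at h2
  push Not at h2
  have hwm : w ∈ A ++ w :: C := by
    rw [List.mem_append, List.mem_cons]
    exact Or.inr (Or.inl rfl)
  have hAm : ∀ a ∈ A, a ∈ A ++ w :: C := fun a ha => List.mem_append_left _ ha
  have hCm : ∀ b ∈ C, b ∈ A ++ w :: C := fun b hb =>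
    List.mem_append_right _ (List.mem_cons_of_mem w hb)
  have hwA : w ∉ A := fun h => (hab w h w List.mem_cons_self).1 rfl
  have hA : A ≠ [] := by
    rintro rfl
    exact huw' ((h4 w hwm).mpr (Or.inl rfl))
  have hC : C ≠ [] := by
    rintro rfl
    apply huw'
    rw [h4 w hwm, List.getLast?_append]
    exact Or.inr rfl
  have hAC : Anti G A C := by
    intro a ha b hb
    obtain ⟨k1, k2⟩ := hab a ha b (List.mem_cons_of_mem w hb)
    refine ⟨k1, fun h => ?_⟩
    have k3 := (k2.mp h).2
    rw [List.head?_cons, Option.some_inj] at k3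
    exact b3 (k3 ▸ hb)
  have hl : (A ++ w :: C).getLast? = C.getLast? := by
    rw [lst_last_append (List.cons_ne_nil w C), lst_last_cons hC]
  refine ⟨A, C.reverse, ⟨hA, a2, h2.1, hwA, ?_, ?_⟩, ?_, ?_, ?_⟩
  · intro x hx
    rw [h4 x (hAm x hx), lst_head_append hA, hl]
    constructor
    · rintro (h | h)
      · exact h
      · exact absurd rfl (hAC x hx x (List.mem_of_getLast? h)).1
    · exact Or.inl
  · intro y hy
    rw [G.adj_comm, (hab y hy w List.mem_cons_self).2]
    simp only [List.head?_cons, and_true]
  · apply st_REV V G w u C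
    refine ⟨hC, b2, b3, h2.2.2, b5, ?_⟩
    intro x hx
    rw [h4 x (hCm x hx), lst_head_append hA, hl]
    constructor
    · rintro (h | h)
      · exact absurd rfl (hAC x (List.mem_of_head? h) x hx).1
      · exact h
    · exact Or.inr
  · intro a ha b hb
    exact hAC a ha b (List.mem_reverse.mp hb)
  · intro x
    rw [hm, List.mem_append, List.mem_cons, List.mem_reverse]
    tauto

theorem st_SP1 : ST_SP1 := by
  intro V G L s t hL hs ht hst
  obtain ⟨M, hM, hm⟩ := lst_first G L s hL hs
  have htM : t ∈ M := by
    rcases (hm t).mp ht with h | h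
    · exact absurd h.symm (G.ne_of_adj hst)
    · exact h
  rw [lst_ic_cons] at hM
  obtain ⟨h1, h2, h3, h4⟩ := hM
  rcases (h4 t htM).mp hst with h | h
  · obtain ⟨Q, rfl⟩ : ∃ Q, M = t :: Q := by
      cases M with
      | nil => exact absurd htM (List.not_mem_nil)
      | cons y Q =>
        rw [List.head?_cons, Option.some_inj] at h
        exact ⟨Q, by rw [h]⟩
    have hQ : Q ≠ [] := by
      rintro rfl
      simp only [List.length_singleton] at h1
      omega
    rw [lst_ip_cons] at h3
    obtain ⟨k1, k2, k3⟩ := h3
    rw [List.mem_cons] at h2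
    push Not at h2
    refine ⟨Q, ⟨hQ, k2, k1, h2.2, k3, ?_⟩, ?_⟩
    · intro x hx
      rw [h4 x (List.mem_cons_of_mem t hx), lst_last_cons hQ, List.head?_cons, Option.some_inj]
      constructor
      · rintro (h | h)
        · exact absurd (h ▸ hx) k1
        · exact h
      · exact Or.inr
    · intro x
      rw [hm, List.mem_cons]
  · obtain ⟨Q, rfl⟩ : ∃ Q, M = Q ++ [t] := by
      have hne : M ≠ [] := List.ne_nil_of_mem htM
      rw [List.getLast?_eq_some_getLast hne, Option.some_inj] at h
      exact ⟨M.dropLast, by rw [← h, List.dropLast_append_getLast hne]⟩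
    have hQ : Q ≠ [] := by
      rintro rfl
      simp only [List.nil_append, List.length_singleton] at h1
      omega
    rw [lst_ip_append] at h3
    obtain ⟨k1, k2, k3⟩ := h3
    rw [List.mem_append, List.mem_singleton] at h2
    push Not at h2
    have htQ : t ∉ Q := fun h => (k3 t h t (List.mem_singleton_self t)).1 rfl
    refine ⟨Q.reverse, ?_, ?_⟩
    · apply st_REV V G s t Q
      refine ⟨hQ, k1, h2.1, htQ, ?_, ?_⟩
      · intro x hx
        rw [h4 x (List.mem_append_left _ hx), lst_head_append hQ, List.getLast?_append,
          List.getLast?_singleton]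
        constructor
        · rintro (h | h)
          · exact h
          · have h' : t = x := Option.some_inj.mp h
            exact absurd (h' ▸ hx) htQ
        · exact Or.inl
      · intro y hy
        rw [G.adj_comm, (k3 y hy t (List.mem_singleton_self t)).2]
        simp only [List.head?_cons, and_true]
    · intro x
      rw [hm, List.mem_append, List.mem_singleton, List.mem_reverse]
      tauto

end Pool.Agent.Helper64.HG
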