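import Pool.Agent.Helper38.HG.Lists
import Pool.Agent.Helper38.HG.FU

set_option autoImplicit false

namespace Pool.Agent.Helper64.HG

variable {V : Type}

theorem psp_add [Finite V] (hPEEL : ST_PEEL) (G : SimpleGraph V) (S : Set V) (x u : V)
    (hx : x ∉ S) (h : ∀ y ∈ S, G.Adj x y → y = u) (hC : Circ (G.induce S)) :
    Circ (G.induce (S ∪ {x})) := by
  apply hPEEL _ (G.induce (S ∪ {x})) ⟨x, Or.inr rfl⟩
  · rintro ⟨a, ha⟩ ⟨b, hb⟩ hxa hxb
    have hxa' : G.Adj x a := hxa
    have hxb' : G.Adj x b := hxb
    have haS : a ∈ S := by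
      rcases ha with ha | ha
      · exact ha
      · exact absurd (Set.mem_singleton_iff.mp ha).symm (G.ne_of_adj hxa')
    have hbS : b ∈ S := by
      rcases hb with hb | hb
      · exact hb
      · exact absurd (Set.mem_singleton_iff.mp hb).symm (G.ne_of_adj hxb')
    apply Subtype.ext
    exact (h a haS hxa').trans (h b hbS hxb').symm
  · have hmem : ∀ y : ({(⟨x, Or.inr rfl⟩ : (S ∪ {x} : Set V))}ᶜ : Set (S ∪ {x} : Set V)),
        y.1.1 ∈ S := by
      rintro ⟨⟨y, hy⟩, hy'⟩
      rcases hy with hy | hy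
      · exact hy
      · exact absurd (Subtype.ext (Set.mem_singleton_iff.mp hy)) hy'
    refine st_EMB _ _ (G.induce S) _ ⟨⟨fun y => ⟨y.1.1, hmem y⟩, ?_⟩, ?_⟩ hC
    · intro y z e
      have e2 : (⟨y.1.1, hmem y⟩ : S) = ⟨z.1.1, hmem z⟩ := e
      have e' := congrArg Subtype.val e2
      exact Subtype.ext (Subtype.ext e')
    · intro y z
      exact Iff.rfl

theorem st_PS (hPEEL : ST_PEEL) : ST_PS := by
  intro V _ G S A
  induction A generalizing S with
  | nil =>
    intro u _ _ _ hC
    have h : S ∪ {x | x ∈ ([] : List V)} = S := by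
      ext x
      simp only [List.not_mem_nil, Set.setOf_false, Set.union_empty]
    rw [h]
    exact hC
  | cons x A ih =>
    intro u hA hAS hadj hC
    rw [lst_ip_cons] at hA
    obtain ⟨h1, h2, h3⟩ := hA
    have hC1 : Circ (G.induce (S ∪ {x})) :=
      psp_add hPEEL G S x u (hAS x List.mem_cons_self)
        (fun y hy hxy => (hadj x List.mem_cons_self y hy hxy).2) hC
    have h4 := ih (S ∪ {x}) x h2 (by
        intro y hy hyS
        rcases hyS with hyS | hyS
        · exact hAS y (List.mem_cons_of_mem x hy) hyS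
        · exact h1 (Set.mem_singleton_iff.mp hyS ▸ hy)) (by
        intro y hy z hz hyz
        rcases hz with hz | hz
        · have h5 := (hadj y (List.mem_cons_of_mem x hy) z hz hyz).1
          rw [List.head?_cons, Option.some_inj] at h5
          exact absurd (h5 ▸ hy) h1
        · obtain rfl := Set.mem_singleton_iff.mp hz
          exact ⟨(h3 y hy).mp hyz.symm, rfl⟩) hC1
    have h6 : S ∪ {y | y ∈ x :: A} = (S ∪ {x}) ∪ {y | y ∈ A} := by
      ext y
      simp only [Set.mem_union, Set.mem_setOf_eq, List.mem_cons, Set.mem_singleton_iff]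
      tauto
    rw [h6]
    exact h4

theorem st_PP (hPS : ST_PS) : ST_PP := by
  intro V _ G u w z A hL hnb hz hC
  obtain ⟨A1, A2, rfl⟩ := List.append_of_mem hz
  have hL0 := hL
  obtain ⟨g1, g2, g3, g4, g5, g6⟩ := hL0
  have hS := st_SPL V G u z w A1 A2 hL
  obtain ⟨-, -, -, -, hanti, -, -, -, -⟩ := hS
  rw [lst_ip_append, lst_ip_cons] at g2
  obtain ⟨a2, ⟨b3, b2, b5⟩, hab⟩ := g2
  have hzA1 : z ∉ A1 := fun h => (hab z h z List.mem_cons_self).1 rfl
  have hm1 : ∀ a ∈ A1, a ∈ A1 ++ z :: A2 := fun a ha => List.mem_append_left _ ha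
  have hm2 : ∀ b ∈ A2, b ∈ A1 ++ z :: A2 := fun b hb =>
    List.mem_append_right _ (List.mem_cons_of_mem z hb)
  have hC1 := hPS V G {x | x ∉ A1 ++ z :: A2} A1 u a2 (fun x hx hx' => hx' (hm1 x hx)) (by
      intro x hx y hy hxy
      have hhead : G.Adj u x → A1.head? = some x := by
        intro h
        have h7 := (g5 x (hm1 x hx)).mp h
        rw [lst_head_append (List.ne_nil_of_mem hx)] at h7
        exact h7
      rcases hnb x (hm1 x hx) y hxy with h | rfl | rfl
      · exact absurd h hy
      · exact ⟨hhead hxy.symm, rfl⟩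
      · exfalso
        have h7 := (g6 x (hm1 x hx)).mp hxy.symm
        rw [lst_last_append (List.cons_ne_nil z A2)] at h7
        exact (hab x hx x (List.mem_of_getLast? h7)).1 rfl) hC
  have hC2 := hPS V G ({x | x ∉ A1 ++ z :: A2} ∪ {x | x ∈ A1}) A2.reverse w
    (lst_ip_rev G A2 b2) (by
      intro x hx hx'
      rw [List.mem_reverse] at hx
      rcases hx' with hx' | hx'
      · exact hx' (hm2 x hx)
      · exact (hanti x hx' x hx).1 rfl) (by
      intro x hx y hy hxy
      rw [List.mem_reverse] at hx
      rw [List.head?_reverse]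
      have hlast : G.Adj w x → A2.getLast? = some x := by
        intro h
        have h7 := (g6 x (hm2 x hx)).mp h
        rw [lst_last_append (List.cons_ne_nil z A2), lst_last_cons (List.ne_nil_of_mem hx)] at h7
        exact h7
      rcases hy with hy | hy
      · rcases hnb x (hm2 x hx) y hxy with h | rfl | rfl
        · exact absurd h hy
        · exfalso
          have h7 := (g5 x (hm2 x hx)).mp hxy.symm
          by_cases hA : A1 = []
          · subst hA
            rw [List.nil_append, List.head?_cons, Option.some_inj] at h7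
            exact b3 (h7 ▸ hx)
          · rw [lst_head_append hA] at h7
            exact (hanti x (List.mem_of_head? h7) x hx).1 rfl
        · exact ⟨hlast hxy.symm, rfl⟩
      · exact absurd hxy.symm (hanti y hy x hx).2) hC1
  have h6 : ({z}ᶜ : Set V) = {x | x ∉ A1 ++ z :: A2} ∪ {x | x ∈ A1} ∪ {x | x ∈ A2.reverse} := by
    ext y
    simp only [Set.mem_compl_iff, Set.mem_singleton_iff, Set.mem_union, Set.mem_setOf_eq,
      List.mem_append, List.mem_cons, List.mem_reverse]
    constructor
    · intro h
      tauto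
    · rintro ((h | h) | h) rfl
      · exact h (Or.inr (Or.inl rfl))
      · exact hzA1 h
      · exact b3 h
  rw [h6]
  exact hC2

end Pool.Agent.Helper64.HG
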