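import Pool.Agent.Helper38.HG.Lists
import Pool.Agent.Helper38.HG.FU

set_option autoImplicit false

namespace Pool.Agent.Helper64.HG

variable {V : Type}

/-- a chain in `K` from a neighbour of `a` to a neighbour of `b` -/
def ShoQ (G : SimpleGraph V) (K : Set V) (b a : V) (P : List V) : Prop :=
  (∃ x, P.head? = some x ∧ G.Adj a x) ∧ (∃ y, P.getLast? = some y ∧ G.Adj b y) ∧
    (∀ x ∈ P, x ∈ K) ∧ List.IsChain G.Adj P

theorem sho_right (G : SimpleGraph V) (K : Set V) (b a : V) (A : List V) (y : V) (B : List V)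
    (h : ShoQ G K b a (A ++ y :: B)) (a' : V) (h' : G.Adj a' y) : ShoQ G K b a' (y :: B) := by
  obtain ⟨_, h2, h3, h4⟩ := h
  refine ⟨⟨y, rfl, h'⟩, ?_, ?_, h4.right_of_append⟩
  · rw [lst_last_append (List.cons_ne_nil y B)] at h2
    exact h2
  · exact fun x hx => h3 x (List.mem_append_right A hx)

theorem sho_left (G : SimpleGraph V) (K : Set V) (b a : V) (A : List V) (y : V) (B : List V)
    (h : ShoQ G K b a (A ++ y :: B)) (h' : G.Adj b y) : ShoQ G K b a (A ++ [y]) := by
  obtain ⟨h1, _, h3, h4⟩ := h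
  refine ⟨?_, ⟨y, by rw [List.getLast?_append]; rfl, h'⟩, ?_, ?_⟩
  · cases A with
    | nil => exact h1
    | cons a A => exact h1
  · intro x hx
    apply h3 x
    rw [List.mem_append, List.mem_cons]
    rw [List.mem_append, List.mem_singleton] at hx
    tauto
  · have h5 : A ++ y :: B = (A ++ [y]) ++ B := by
      rw [List.append_assoc, List.singleton_append]
    rw [h5] at h4
    exact h4.left_of_append

theorem sho_min (G : SimpleGraph V) (K : Set V) (b : V) (P : List V) : ∀ a : V,
    ShoQ G K b a P → (∀ P2, ShoQ G K b a P2 → P.length ≤ P2.length) →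
      IP G P ∧ (∀ x ∈ P, (G.Adj a x ↔ P.head? = some x)) := by
  induction P with
  | nil =>
    rintro a ⟨⟨x, hx, _⟩, _⟩ _
    simp only [List.head?_nil, reduceCtorEq] at hx
  | cons x P ih =>
    intro a hQ hmin
    have hax : G.Adj a x := by
      obtain ⟨⟨y, hy, hay⟩, _⟩ := hQ
      rw [List.head?_cons, Option.some_inj] at hy
      rw [hy]
      exact hay
    have hfirst : ∀ y ∈ P, ¬ G.Adj a y := by
      intro y hy hay
      obtain ⟨A, B, rfl⟩ := List.append_of_mem hy
      have h1 := sho_right G K b a (x :: A) y B hQ a hay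
      have h2 := hmin _ h1
      simp only [List.length_cons, List.length_append] at h2
      omega
    have hxP : x ∉ P := fun hx => hfirst x hx hax
    have hIP : IP G (x :: P) := by
      rw [lst_ip_cons]
      by_cases hP : P = []
      · subst hP
        exact ⟨List.not_mem_nil, lst_ip_nil G, fun y hy => absurd hy List.not_mem_nil⟩
      · have hQ' : ShoQ G K b x P := by
          obtain ⟨_, h2, h3, h4⟩ := hQ
          rw [List.isChain_cons] at h4
          refine ⟨⟨P.head hP, List.head?_eq_some_head hP, ?_⟩, ?_, ?_, h4.2⟩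
          · exact h4.1 _ (List.head?_eq_some_head hP)
          · rw [lst_last_cons hP] at h2
            exact h2
          · exact fun y hy => h3 y (List.mem_cons_of_mem x hy)
        obtain ⟨h1, h2⟩ := ih x hQ' (by
          intro P2 hP2
          have hP2' : ShoQ G K b a (x :: P2) := by
            obtain ⟨⟨z, hz, hxz⟩, h2, h3, h4⟩ := hP2
            have hne : P2 ≠ [] := by
              rintro rfl
              simp only [List.head?_nil, reduceCtorEq] at hz
            refine ⟨⟨x, rfl, hax⟩, ?_, ?_, ?_⟩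
            · rw [lst_last_cons hne]
              exact h2
            · intro y hy
              rw [List.mem_cons] at hy
              rcases hy with rfl | hy
              · exact hQ.2.2.1 y List.mem_cons_self
              · exact h3 y hy
            · rw [List.isChain_cons]
              refine ⟨?_, h4⟩
              intro y hy
              rw [hz, Option.mem_def, Option.some_inj] at hy
              rw [← hy]
              exact hxz
          have h5 := hmin _ hP2'
          simp only [List.length_cons] at h5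
          omega)
        exact ⟨hxP, h1, h2⟩
    refine ⟨hIP, ?_⟩
    intro y hy
    rw [List.head?_cons, Option.some_inj]
    rw [List.mem_cons] at hy
    rcases hy with rfl | hy
    · exact ⟨fun _ => rfl, fun _ => hax⟩
    · constructor
      · intro h
        exact absurd h (hfirst y hy)
      · rintro rfl
        exact absurd hy hxP

/-- the shortest path, without connectedness -/
theorem sho_core (G : SimpleGraph V) (K : Set V) (a b : V) (ha : a ∉ K) (hb : b ∉ K)
    (h : ∃ P, ShoQ G K b a P) : ∃ A : List V, (∀ x ∈ A, x ∈ K) ∧ Link G a A b := by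
  classical
  have hex : ∃ n : ℕ, ∃ P, ShoQ G K b a P ∧ P.length = n := by
    obtain ⟨P, hP⟩ := h
    exact ⟨P.length, P, hP, rfl⟩
  obtain ⟨P, hP, hn⟩ := Nat.find_spec hex
  have hmin : ∀ P2, ShoQ G K b a P2 → P.length ≤ P2.length := by
    intro P2 hP2
    rw [hn]
    exact Nat.find_min' hex ⟨P2, hP2, rfl⟩
  obtain ⟨h1, h2⟩ := sho_min G K b P a hP hmin
  refine ⟨P, hP.2.2.1, ?_, h1, fun h => ha (hP.2.2.1 a h), fun h => hb (hP.2.2.1 b h), h2, ?_⟩
  · obtain ⟨⟨z, hz, _⟩, _⟩ := hP
    rintro rfl
    simp only [List.head?_nil, reduceCtorEq] at hz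
  · intro x hx
    constructor
    · intro hbx
      obtain ⟨A, B, rfl⟩ := List.append_of_mem hx
      have h3 := hmin _ (sho_left G K b a A x B hP hbx)
      simp only [List.length_append, List.length_cons, List.length_nil] at h3
      have hB : B = [] := List.eq_nil_of_length_eq_zero (by omega)
      subst hB
      rw [List.getLast?_append]
      rfl
    · intro h3
      obtain ⟨y, hy, hby⟩ := hP.2.1
      rw [h3, Option.some_inj] at hy
      rw [hy]
      exact hby

theorem st_SHO : ST_SHO := by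
  rintro V G K a b hK ha hb ⟨x, hx, hax⟩ ⟨y, hy, hby⟩
  refine sho_core G K a b ha hb ?_
  obtain ⟨w⟩ := hK ⟨x, hx⟩ ⟨y, hy⟩
  refine ⟨w.support.map Subtype.val, ?_, ?_, ?_, ?_⟩
  · refine ⟨x, ?_, hax⟩
    rw [List.head?_map, SimpleGraph.Walk.support_eq_cons, List.head?_cons]
    rfl
  · refine ⟨y, ?_, hby⟩
    rw [List.getLast?_map, List.getLast?_eq_some_getLast (SimpleGraph.Walk.support_ne_nil w),
      SimpleGraph.Walk.getLast_support]
    rfl
  · intro z hz
    obtain ⟨z', _, rfl⟩ := List.mem_map.mp hz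
    exact z'.2
  · rw [List.isChain_map]
    exact w.isChain_adj_support

theorem st_CYCEX : ST_CYCEX := by
  intro V _ G hT hcard _
  classical
  haveI := Fintype.ofFinite V
  rw [Nat.card_eq_fintype_card] at hcard
  obtain ⟨c1, c2, c3, h12, h13, h23⟩ := Fintype.two_lt_card_iff.mp hcard
  -- a neighbour of c1
  obtain ⟨a, ha⟩ : ∃ a, G.Adj c1 a := by
    obtain ⟨w⟩ := hT.1 c1 c2
    cases w with
    | nil => exact absurd rfl h12
    | cons h _ => exact ⟨_, h⟩
  have hac : a ≠ c1 := (G.ne_of_adj ha).symm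
  obtain ⟨c, hc1, hca⟩ : ∃ c, c ≠ c1 ∧ c ≠ a := by
    by_cases h : c2 = a
    · exact ⟨c3, h13.symm, fun e => h23 (h.trans e.symm)⟩
    · exact ⟨c2, h12.symm, h⟩
  obtain ⟨b, hb, hba⟩ : ∃ b, G.Adj c1 b ∧ b ≠ a := by
    obtain ⟨w⟩ := hT.2 a ⟨c1, fun e => hac (Set.mem_singleton_iff.mp e).symm⟩
      ⟨c, fun e => hca (Set.mem_singleton_iff.mp e)⟩
    cases w with
    | nil => exact absurd rfl hc1
    | @cons _ v _ h _ => exact ⟨v.1, h, v.2⟩
  have hbc : b ≠ c1 := (G.ne_of_adj hb).symm
  -- a path from a to b avoiding c1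
  obtain ⟨A, hA, hL⟩ := sho_core G {x | x ≠ c1 ∧ x ≠ a} a c1 (fun h => h.2 rfl) (fun h => h.1 rfl)
    (by
      obtain ⟨w⟩ := hT.2 c1 ⟨a, hac⟩ ⟨b, hbc⟩
      have hp := w.toPath.2
      generalize w.toPath.1 = p at hp
      cases p with
      | nil => exact absurd rfl hba
      | @cons _ v _ h p =>
        rw [SimpleGraph.Walk.cons_isPath_iff] at hp
        refine ⟨p.support.map Subtype.val, ?_, ?_, ?_, ?_⟩
        · refine ⟨v.1, ?_, h⟩
          rw [List.head?_map, SimpleGraph.Walk.support_eq_cons, List.head?_cons]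
          rfl
        · refine ⟨b, ?_, hb⟩
          rw [List.getLast?_map,
            List.getLast?_eq_some_getLast (SimpleGraph.Walk.support_ne_nil p),
            SimpleGraph.Walk.getLast_support]
          rfl
        · intro z hz
          obtain ⟨z', hz', rfl⟩ := List.mem_map.mp hz
          refine ⟨z'.2, fun e => hp.2 ?_⟩
          have : z' = ⟨a, hac⟩ := Subtype.ext e
          rw [← this]
          exact hz'
        · rw [List.isChain_map]
          exact p.isChain_adj_support)
  exact ⟨_, st_CY1 V G a c1 A hL ha.symm⟩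

theorem k567_nil {x : Type} {A : List x} (h : 1 ≤ A.length) : A ≠ [] := by
  rintro rfl
  simp only [List.length_nil] at h
  omega

theorem k567_5 : ∀ i j k l : Fin 4, i ≠ j → i ≠ k → i ≠ l → j ≠ k → j ≠ l → k ≠ l →
    ¬ (((i = 0 ∧ (j = 1 ∨ j = 2)) ∨ (j = 0 ∧ (i = 1 ∨ i = 2))) ∧
      ((j = 0 ∧ (k = 1 ∨ k = 2)) ∨ (k = 0 ∧ (j = 1 ∨ j = 2))) ∧
      ((k = 0 ∧ (l = 1 ∨ l = 2)) ∨ (l = 0 ∧ (k = 1 ∨ k = 2)))) := by decide

theorem k567_6 : ∀ i j k : Fin 4,
    ((i = 0 ∧ j = 1) ∨ (i = 1 ∧ j = 0) ∨ (i = 2 ∧ j = 3) ∨ (i = 3 ∧ j = 2)) →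
    ((j = 0 ∧ k = 1) ∨ (j = 1 ∧ k = 0) ∨ (j = 2 ∧ k = 3) ∨ (j = 3 ∧ k = 2)) → i = k := by decide

theorem st_K567 : ST_K567 := by
  intro V G h
  rcases h with ⟨x, A, hK, h1, h2, h3, h4, h5, h6⟩ | ⟨x, A, hK, h1, h2, h3, h4, h5⟩ | ⟨x, A, hK, h1⟩
  · refine ⟨x, A, hK, ?_⟩
    have key : ∀ i j : Fin 4, i ≠ j → A i j = [] →
        ((i = 0 ∧ (j = 1 ∨ j = 2)) ∨ (j = 0 ∧ (i = 1 ∨ i = 2))) := by
      intro i j hij he
      have he' : A j i = [] := by rw [hK.rev i j, he, List.reverse_nil]
      have g1 := k567_nil (h3.symm.le)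
      have g2 := k567_nil (le_trans (by omega) h4 : 1 ≤ (A 1 2).length)
      have g3 := k567_nil h5
      have g4 := k567_nil h6
      fin_cases i <;> fin_cases j
      · exact absurd rfl hij
      · exact Or.inl ⟨rfl, Or.inl rfl⟩
      · exact Or.inl ⟨rfl, Or.inr rfl⟩
      · exact absurd he g1
      · exact Or.inr ⟨rfl, Or.inl rfl⟩
      · exact absurd rfl hij
      · exact absurd he g2
      · exact absurd he g3
      · exact Or.inr ⟨rfl, Or.inr rfl⟩
      · exact absurd he' g2
      · exact absurd rfl hij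
      · exact absurd he g4
      · exact absurd he' g1
      · exact absurd he' g3
      · exact absurd he' g4
      · exact absurd rfl hij
    rintro i j k l hij hik hil hjk hjl hkl ⟨e1, e2, e3⟩
    exact k567_5 i j k l hij hik hil hjk hjl hkl ⟨key i j hij e1, key j k hjk e2, key k l hkl e3⟩
  · refine ⟨x, A, hK, ?_⟩
    have key : ∀ i j : Fin 4, i ≠ j → A i j = [] →
        ((i = 0 ∧ j = 1) ∨ (i = 1 ∧ j = 0) ∨ (i = 2 ∧ j = 3) ∨ (i = 3 ∧ j = 2)) := by
      intro i j hij he
      have he' : A j i = [] := by rw [hK.rev i j, he, List.reverse_nil]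
      have g1 := k567_nil (h2.symm.le)
      have g2 := k567_nil (h3.symm.le)
      have g3 := k567_nil (h4.symm.le)
      have g4 := k567_nil (h5.symm.le)
      fin_cases i <;> fin_cases j
      · exact absurd rfl hij
      · exact Or.inl ⟨rfl, rfl⟩
      · exact absurd he g1
      · exact absurd he g2
      · exact Or.inr (Or.inl ⟨rfl, rfl⟩)
      · exact absurd rfl hij
      · exact absurd he g3
      · exact absurd he g4
      · exact absurd he' g1
      · exact absurd he' g3
      · exact absurd rfl hij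
      · exact Or.inr (Or.inr (Or.inl ⟨rfl, rfl⟩))
      · exact absurd he' g2
      · exact absurd he' g4
      · exact Or.inr (Or.inr (Or.inr ⟨rfl, rfl⟩))
      · exact absurd rfl hij
    rintro i j k l hij hik hil hjk hjl hkl ⟨e1, e2, e3⟩
    exact hik (k567_6 i j k (key i j hij e1) (key j k hjk e2))
  · refine ⟨x, A, hK, ?_⟩
    rintro i j k l hij hik hil hjk hjl hkl ⟨e1, _, _⟩
    exact k567_nil (h1 i j hij).symm.le e1

end Pool.Agent.Helper64.HG
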